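import Pool.Agent.LibPentagon.Flag2

set_option autoImplicit false

open Finset

namespace Pool.Agent.LibPentagon

variable {V : Type*} [Fintype V] [DecidableEq V] (G : SimpleGraph V) [DecidableRel G.Adj]

/-- Labelled 5-cycles of `G`. -/
def cyc5 : Finset (Fin 5 → V) :=
  univ.filter fun x => Function.Injective x ∧ ∀ i, G.Adj (x i) (x (i + 1))

variable {G}

theorem mem_cyc5 {x : Fin 5 → V} :
    x ∈ cyc5 G ↔ Function.Injective x ∧ ∀ i, G.Adj (x i) (x (i + 1)) := by
  simp [cyc5]

/-- rotation of cycles -/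
theorem sum_cyc5_rot (F : V → ℝ) (i : Fin 5) :
    ∑ x ∈ cyc5 G, F (x i) = ∑ x ∈ cyc5 G, F (x 0) := by
  let e : (Fin 5 → V) ≃ (Fin 5 → V) :=
    { toFun := fun x j => x (j + i)
      invFun := fun x j => x (j - i)
      left_inv := fun x => by funext j; simp
      right_inv := fun x => by funext j; simp }
  refine Finset.sum_equiv e ?_ ?_
  · intro x
    simp only [mem_cyc5]
    constructor
    · rintro ⟨h1, h2⟩
      refine ⟨fun a b hab => add_left_injective i (h1 hab), fun j => ?_⟩
      have := h2 (j + i)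
      rwa [add_right_comm] at this
    · rintro ⟨h1, h2⟩
      refine ⟨fun a b hab => ?_, fun j => ?_⟩
      · have h3 := h1 (a₁ := a - i) (a₂ := b - i)
        have h4 : e x (a - i) = e x (b - i) := by
          change x (a - i + i) = x (b - i + i)
          rw [sub_add_cancel, sub_add_cancel, hab]
        exact sub_left_injective (h3 h4)
      · have := h2 (j - i)
        change G.Adj (x (j - i + i)) (x (j - i + 1 + i)) at this
        rwa [sub_add_cancel, add_right_comm, sub_add_cancel] at this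
  · intro x _
    change F (x i) = F (x (0 + i))
    rw [zero_add]

/-- number of labelled 5-cycles starting at `v` -/
def rr (G : SimpleGraph V) [DecidableRel G.Adj] (v : V) : ℕ := ((cyc5 G).filter fun x => x 0 = v).card

theorem sum_cyc5_fiber (F : V → ℝ) : ∑ x ∈ cyc5 G, F (x 0) = ∑ v, F v * (rr G v : ℝ) := by
  rw [← Finset.sum_fiberwise (cyc5 G) (fun x => x 0) (fun x => F (x 0))]
  apply Finset.sum_congr rfl
  intro v _
  rw [Finset.sum_congr rfl (g := fun _ => F v)]
  · rw [Finset.sum_const, rr, nsmul_eq_mul, mul_comm]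
  · intro x hx
    rw [(Finset.mem_filter.mp hx).2]

theorem card_cyc5_eq : ((cyc5 G).card : ℝ) = ∑ v, (rr G v : ℝ) := by
  have := sum_cyc5_fiber (G := G) (fun _ => 1)
  simpa using this

/-- codegree bound -/
def CodegLE (G : SimpleGraph V) [DecidableRel G.Adj] (k : ℕ) : Prop :=
  ∀ u v, G.Adj u v → (G.neighborFinset u ∩ G.neighborFinset v).card ≤ k

omit [DecidableEq V] in
theorem S5_PE : S5 (PE fun x y => decide (G.Adj x y)) =
    (Fintype.card V : ℤ) ^ 3 * ∑ v, (G.degree v : ℤ) := by
  rw [S5_nested]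
  have h : ∑ d, ∑ e, PE (fun x y => decide (G.Adj x y)) d d d d e = ∑ v, (G.degree v : ℤ) := by
    apply Finset.sum_congr rfl
    intro d _
    simp only [PE, Bool.cond_decide]
    rw [← Finset.sum_filter, Finset.sum_const, ← G.card_neighborFinset_eq_degree]
    simp only [mul_one, nsmul_eq_mul]
    congr 1
    congr 1
    ext e
    simp
  have h2 : ∀ a b c : V, ∑ d, ∑ e, PE (fun x y => decide (G.Adj x y)) a b c d e =
      ∑ v, (G.degree v : ℤ) := by
    intro a b c
    rw [← h]
    rfl
  simp only [h2, Finset.sum_const, Finset.card_univ, nsmul_eq_mul]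
  ring

theorem S5_PT_le {k : ℕ} (hk : CodegLE G k) : S5 (PT fun x y => decide (G.Adj x y)) ≤
    (k : ℤ) * (Fintype.card V : ℤ) ^ 4 := by
  rw [S5_nested]
  have h2 : ∀ a b : V, ∑ c, ∑ d, ∑ e, PT (fun x y => decide (G.Adj x y)) a b c d e ≤
      k * (Fintype.card V : ℤ) ^ 2 := by
    intro a b
    by_cases hab : G.Adj a b
    · have h3 : ∀ c, ∑ d, ∑ e, PT (fun x y => decide (G.Adj x y)) a b c d e =
        (Fintype.card V : ℤ) ^ 2 * (if c ∈ G.neighborFinset a ∩ G.neighborFinset b then 1 else 0) := by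
        intro c
        simp only [PT, Finset.sum_const, Finset.card_univ, nsmul_eq_mul, hab, decide_true,
          Bool.true_and, Finset.mem_inter, SimpleGraph.mem_neighborFinset]
        by_cases h1 : G.Adj b c <;> by_cases h2 : G.Adj a c <;> simp [h1, h2]
        ring
      simp only [h3]
      rw [← Finset.mul_sum, Finset.sum_ite_mem, Finset.univ_inter, Finset.sum_const]
      have := hk a b hab
      simp only [nsmul_eq_mul, mul_one]
      rw [mul_comm]
      have h4 : ((G.neighborFinset a ∩ G.neighborFinset b).card : ℤ) ≤ k := by exact_mod_cast this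
      gcongr
    · have h3 : ∀ c, ∑ d, ∑ e, PT (fun x y => decide (G.Adj x y)) a b c d e = 0 := by
        intro c
        simp [PT, hab]
      simp only [h3]
      simp only [Finset.sum_const_zero]
      positivity
  calc ∑ a, ∑ b, ∑ c, ∑ d, ∑ e, PT (fun x y => decide (G.Adj x y)) a b c d e ≤
      ∑ _a : V, ∑ _b : V, (k * (Fintype.card V : ℤ) ^ 2) :=
        Finset.sum_le_sum fun a _ => Finset.sum_le_sum fun b _ => h2 a b
    _ = _ := by
      simp only [Finset.sum_const, Finset.card_univ, nsmul_eq_mul]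
      ring

theorem card_cyc5_le_PC : ((cyc5 G).card : ℤ) ≤ S5 (PC fun x y => decide (G.Adj x y)) := by
  unfold S5 cyc5
  rw [Finset.card_filter]
  push_cast
  apply Finset.sum_le_sum
  intro x _
  split_ifs with h
  · have h0 := h.2 0
    have h1 := h.2 1
    have h2 := h.2 2
    have h3 := h.2 3
    have h4 := h.2 4
    have e0 : (0 : Fin 5) + 1 = 1 := rfl
    have e1 : (1 : Fin 5) + 1 = 2 := rfl
    have e2 : (2 : Fin 5) + 1 = 3 := rfl
    have e3 : (3 : Fin 5) + 1 = 4 := rfl
    have e4 : (4 : Fin 5) + 1 = 0 := rfl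
    rw [e0] at h0; rw [e1] at h1; rw [e2] at h2; rw [e3] at h3; rw [e4] at h4
    simp [PC, h0, h1, h2, h3, h4]
  · unfold PC
    cases (decide (G.Adj (x 0) (x 1)) && decide (G.Adj (x 1) (x 2)) &&
      decide (G.Adj (x 2) (x 3)) && decide (G.Adj (x 3) (x 4)) && decide (G.Adj (x 4) (x 0))) <;> simp

/-- **The pentagon inequality with an edge-density term.** -/
theorem pentagon_ineq {k : ℕ} (hk : CodegLE G k) :
    450000 * ((cyc5 G).card : ℝ) ≤ 1296 * (Fintype.card V : ℝ) ^ 5 +
      360 * ((Fintype.card V : ℝ) ^ 3 * ∑ v, (G.degree v : ℝ)) +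
      448344 * (k * (Fintype.card V : ℝ) ^ 4) := by
  have h := flag_ineq_aux (fun x y => decide (G.Adj x y)) (fun x y => by simp [G.adj_comm])
    (fun x => by simp)
  have h1 := card_cyc5_le_PC (G := G)
  have h2 := S5_PT_le hk
  rw [S5_PE] at h
  have h3 : 450000 * ((cyc5 G).card : ℤ) ≤ 1296 * (Fintype.card V : ℤ) ^ 5 +
      360 * ((Fintype.card V : ℤ) ^ 3 * ∑ v, (G.degree v : ℤ)) +
      448344 * (k * (Fintype.card V : ℤ) ^ 4) := by linarith
  exact_mod_cast h3

end Pool.Agent.LibPentagon
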