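import Pool.Agent.LibPentagon.Struct

set_option autoImplicit false

open Finset

namespace Pool.Agent.LibPentagon

variable {V : Type*} [Fintype V] [DecidableEq V] {G : SimpleGraph V} [DecidableRel G.Adj]

/-! ### Transversal cycles -/

/-- Transversal closed walks: `y i ∈ W i` and consecutive vertices adjacent. -/
def TT (G : SimpleGraph V) [DecidableRel G.Adj] (W : Fin 5 → Finset V) : Finset (Fin 5 → V) :=
  univ.filter fun y => ∀ i, y i ∈ W i ∧ G.Adj (y i) (y (i + 1))

theorem mem_TT {W : Fin 5 → Finset V} {y : Fin 5 → V} :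
    y ∈ TT G W ↔ ∀ i, y i ∈ W i ∧ G.Adj (y i) (y (i + 1)) := by simp [TT]

/-- `s ∈ {1, 4}` are the two signs in `Fin 5`. -/
def XX (G : SimpleGraph V) [DecidableRel G.Adj] (W : Fin 5 → Finset V) (j s : Fin 5) :
    Finset (Fin 5 → V) :=
  univ.filter fun y => ∀ i, y i ∈ W (j + s * i) ∧ G.Adj (y i) (y (i + 1))

theorem mem_XX {W : Fin 5 → Finset V} {j s : Fin 5} {y : Fin 5 → V} :
    y ∈ XX G W j s ↔ ∀ i, y i ∈ W (j + s * i) ∧ G.Adj (y i) (y (i + 1)) := by simp [XX]

theorem fin_aux1 : ∀ i j s : Fin 5, (s = 1 ∨ s = 4) → j + s * (s * (i - j)) = i := by decide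

theorem fin_aux2 : ∀ i j : Fin 5, (1 : Fin 5) * (i - j) + 1 = 1 * (i + 1 - j) := by decide

theorem fin_aux3 : ∀ i j : Fin 5, (4 : Fin 5) * (i + 1 - j) + 1 = 4 * (i - j) := by decide

theorem fin_aux4 : ∀ i j s : Fin 5, (s = 1 ∨ s = 4) → s * (j + s * i - j) = i := by decide

theorem card_XX_le (W : Fin 5 → Finset V) (j s : Fin 5) (hs : s = 1 ∨ s = 4) :
    (XX G W j s).card ≤ (TT G W).card := by
  refine Finset.card_le_card_of_injOn (fun y i => y (s * (i - j))) ?_ ?_
  · intro y hy
    have hy' := mem_XX.mp hy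
    change (fun i => y (s * (i - j))) ∈ TT G W
    rw [mem_TT]
    intro i
    constructor
    · have h1 := (hy' (s * (i - j))).1
      rwa [fin_aux1 i j s hs] at h1
    · rcases hs with rfl | rfl
      · have h1 := (hy' (1 * (i - j))).2
        rwa [fin_aux2] at h1
      · have h1 := (hy' (4 * (i + 1 - j))).2
        rw [fin_aux3] at h1
        exact h1.symm
  · intro y _ z _ hyz
    funext i
    have h := congrFun hyz (j + s * i)
    simp only [fin_aux4 i j s hs] at h
    exact h

theorem kappa_decide : ∀ κ : Fin 5 → Fin 5, (∀ i, κ (i + 1) = κ i + 1 ∨ κ (i + 1) = κ i - 1) →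
    ∃ j s : Fin 5, (s = 1 ∨ s = 4) ∧ ∀ i, κ i = j + s * i := by
  have h : ∀ a b c d e : Fin 5, (b = a + 1 ∨ b = a - 1) → (c = b + 1 ∨ c = b - 1) →
      (d = c + 1 ∨ d = c - 1) → (e = d + 1 ∨ e = d - 1) → (a = e + 1 ∨ a = e - 1) →
      ∃ j s : Fin 5, (s = 1 ∨ s = 4) ∧ a = j + s * 0 ∧ b = j + s * 1 ∧ c = j + s * 2 ∧
        d = j + s * 3 ∧ e = j + s * 4 := by
    decide +kernel
  intro κ hκ
  obtain ⟨j, s, hs, h0, h1, h2, h3, h4⟩ := h (κ 0) (κ 1) (κ 2) (κ 3) (κ 4) (hκ 0) (hκ 1) (hκ 2)
    (hκ 3) (hκ 4)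
  refine ⟨j, s, hs, fun i => ?_⟩
  fin_cases i
  · exact h0
  · exact h1
  · exact h2
  · exact h3
  · exact h4

/-- The union of the ten families `XX`. -/
theorem card_union_XX_le (W : Fin 5 → Finset V) :
    ((univ : Finset (Fin 5)).biUnion fun j => XX G W j 1 ∪ XX G W j 4).card ≤
      10 * (TT G W).card := by
  refine le_trans Finset.card_biUnion_le ?_
  calc ∑ j : Fin 5, (XX G W j 1 ∪ XX G W j 4).card ≤ ∑ _j : Fin 5, 2 * (TT G W).card := by
        apply Finset.sum_le_sum
        intro j _
        refine le_trans (Finset.card_union_le _ _) ?_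
        have h1 := card_XX_le (G := G) W j 1 (Or.inl rfl)
        have h2 := card_XX_le (G := G) W j 4 (Or.inr rfl)
        omega
    _ = _ := by rw [Finset.sum_const, Finset.card_univ, Fintype.card_fin]; simp; ring

theorem mem_union_XX {W : Fin 5 → Finset V} {x : Fin 5 → V} (κ : Fin 5 → Fin 5)
    (hx : ∀ i, G.Adj (x i) (x (i + 1))) (hW : ∀ i, x i ∈ W (κ i))
    (hκ : ∀ i, κ (i + 1) = κ i + 1 ∨ κ (i + 1) = κ i - 1) :
    x ∈ (univ : Finset (Fin 5)).biUnion fun j => XX G W j 1 ∪ XX G W j 4 := by
  obtain ⟨j, s, hs, h⟩ := kappa_decide κ hκ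
  rw [Finset.mem_biUnion]
  refine ⟨j, Finset.mem_univ _, ?_⟩
  rw [Finset.mem_union]
  rcases hs with rfl | rfl
  · left
    rw [mem_XX]
    intro i
    refine ⟨?_, hx i⟩
    rw [← h i]; exact hW i
  · right
    rw [mem_XX]
    intro i
    refine ⟨?_, hx i⟩
    rw [← h i]; exact hW i

/-- Transversal walks are bounded by the product of the sizes. -/
theorem card_TT_le (W : Fin 5 → Finset V) : (TT G W).card ≤ ∏ i, (W i).card := by
  rw [← Fintype.card_piFinset]
  apply Finset.card_le_card
  intro y hy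
  rw [Fintype.mem_piFinset]
  exact fun i => (mem_TT.mp hy i).1

/-- Missing pairs between two sets. -/
def miss (G : SimpleGraph V) [DecidableRel G.Adj] (A B : Finset V) : Finset (V × V) :=
  (A ×ˢ B).filter fun p => ¬ G.Adj p.1 p.2

theorem card_TT_add_miss (W : Fin 5 → Finset V) :
    (TT G W).card + (miss G (W 0) (W 1)).card * ((W 2).card * ((W 3).card * (W 4).card)) ≤
      ∏ i, (W i).card := by
  rw [← Fintype.card_piFinset, ← Finset.card_product, ← Finset.card_product,
    ← Finset.card_product]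
  have hinj : Set.InjOn (fun q : (V × V) × V × V × V => ![q.1.1, q.1.2, q.2.1, q.2.2.1, q.2.2.2])
      ((miss G (W 0) (W 1) ×ˢ (W 2 ×ˢ (W 3 ×ˢ W 4)) : Finset _) : Set ((V × V) × V × V × V)) := by
    rintro ⟨⟨a, b⟩, c, d, e⟩ _ ⟨⟨a', b'⟩, c', d', e'⟩ _ h
    have h0 := congrFun h 0
    have h1 := congrFun h 1
    have h2 := congrFun h 2
    have h3 := congrFun h 3
    have h4 := congrFun h 4
    simp only [Matrix.cons_val] at h0 h1 h2 h3 h4
    simp [h0, h1, h2, h3, h4]
  rw [← Finset.card_image_of_injOn hinj, ← Finset.card_union_of_disjoint]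
  · apply Finset.card_le_card
    intro y hy
    rw [Fintype.mem_piFinset]
    rcases Finset.mem_union.mp hy with hy | hy
    · exact fun i => (mem_TT.mp hy i).1
    · obtain ⟨⟨⟨a, b⟩, c, d, e⟩, hq, rfl⟩ := Finset.mem_image.mp hy
      simp only [miss, Finset.mem_product, Finset.mem_filter] at hq
      intro i
      fin_cases i
      · exact hq.1.1.1
      · exact hq.1.1.2
      · exact hq.2.1
      · exact hq.2.2.1
      · exact hq.2.2.2
  · rw [Finset.disjoint_left]
    intro y hy hy'
    obtain ⟨⟨⟨a, b⟩, c, d, e⟩, hq, rfl⟩ := Finset.mem_image.mp hy'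
    simp only [miss, Finset.mem_product, Finset.mem_filter] at hq
    have := (mem_TT.mp hy 0).2
    exact hq.1.2 this

/-- The same with an arbitrary starting index. -/
theorem card_TT_add_miss' (W : Fin 5 → Finset V) (j : Fin 5) :
    (TT G W).card + (miss G (W j) (W (j + 1))).card *
      ((W (j + 2)).card * ((W (j + 3)).card * (W (j + 4)).card)) ≤ ∏ i, (W i).card := by
  have h := card_TT_add_miss (G := G) (fun i => W (j + i))
  have h1 : ∏ i, (W (j + i)).card = ∏ i, (W i).card :=
    Fintype.prod_equiv (Equiv.addLeft j) _ _ (fun i => rfl)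
  have h2 : (TT G W).card ≤ (TT G fun i => W (j + i)).card := by
    refine Finset.card_le_card_of_injOn (fun y i => y (j + i)) ?_ ?_
    · intro y hy
      have hy' := mem_TT.mp hy
      change (fun i => y (j + i)) ∈ TT G (fun i => W (j + i))
      rw [mem_TT]
      intro i
      refine ⟨(hy' (j + i)).1, ?_⟩
      have := (hy' (j + i)).2
      rwa [add_assoc] at this
    · intro y _ z _ hyz
      funext i
      have h := congrFun hyz (i - j)
      simpa using h
  rw [h1] at h
  simp only [add_zero] at h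
  omega

/-! ### Counting exceptional cycles -/

theorem card_exc_rest (R : Finset V) (i : Fin 5) :
    (univ.filter fun x : Fin 5 → V => x i ∈ R).card = R.card * Fintype.card V ^ 4 := by
  have h : (univ.filter fun x : Fin 5 → V => x i ∈ R) =
      Fintype.piFinset (fun j => if j = i then R else univ) := by
    ext x
    simp only [Finset.mem_filter, Finset.mem_univ, true_and, Fintype.mem_piFinset]
    constructor
    · intro h j
      split_ifs with hj
      · rw [hj]; exact h
      · exact Finset.mem_univ _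
    · intro h
      simpa using h i
  rw [h, Fintype.card_piFinset]
  fin_cases i <;> simp [Fin.prod_univ_five] <;> ring

theorem card_exc_wr {k : ℕ} (w : V → Finset V) (hw : ∀ u, (w u).card ≤ 2 * k) (i : Fin 5) :
    (univ.filter fun x : Fin 5 → V => x (i + 1) ∈ w (x i)).card ≤ 2 * k * Fintype.card V ^ 4 := by
  have h0 := S5_perm (V := V) (fun a b _ _ _ => if b ∈ w a then 1 else 0)
    (i, i + 1, i + 2, i + 3, i + 4) (by revert i; decide +kernel)
  have h1 : ((univ.filter fun x : Fin 5 → V => x (i + 1) ∈ w (x i)).card : ℤ) =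
      S5 (V := V) (fun a b _ _ _ => if b ∈ w a then 1 else 0) := by
    rw [← h0, Finset.card_filter]
    push_cast
    rfl
  have h2 : S5 (V := V) (fun a b _ _ _ => if b ∈ w a then 1 else 0) ≤
      2 * k * (Fintype.card V : ℤ) ^ 4 := by
    rw [S5_nested]
    calc ∑ a : V, ∑ b, ∑ _c : V, ∑ _d : V, ∑ _e : V, (if b ∈ w a then (1 : ℤ) else 0) =
        ∑ a : V, (w a).card * (Fintype.card V : ℤ) ^ 3 := by
          apply Finset.sum_congr rfl
          intro a _
          simp only [Finset.sum_const, Finset.card_univ, nsmul_eq_mul]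
          rw [← Finset.mul_sum, ← Finset.mul_sum, ← Finset.mul_sum, Finset.sum_ite_mem,
            Finset.univ_inter, Finset.sum_const]
          simp only [nsmul_eq_mul, mul_one]
          ring
      _ ≤ ∑ _a : V, (2 * k) * (Fintype.card V : ℤ) ^ 3 := by
          apply Finset.sum_le_sum
          intro a _
          have : ((w a).card : ℤ) ≤ 2 * k := by exact_mod_cast hw a
          gcongr
      _ = _ := by
          rw [Finset.sum_const, Finset.card_univ, nsmul_eq_mul]
          ring
  have h3 : ((univ.filter fun x : Fin 5 → V => x (i + 1) ∈ w (x i)).card : ℤ) ≤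
      2 * k * (Fintype.card V : ℤ) ^ 4 := by rw [h1]; exact h2
  exact_mod_cast h3

/-- All labelled 5-cycles are transversal up to few exceptions. -/
theorem card_cyc5_le_TT {k : ℕ} (hk : CodegLE G k) (c : Fin 5 → V) :
    (cyc5 G).card ≤ 10 * (TT G (cls G c)).card + 5 * ((rest G c).card * Fintype.card V ^ 4) +
      5 * (2 * k * Fintype.card V ^ 4) := by
  have hsub : cyc5 G ⊆ ((univ : Finset (Fin 5)).biUnion fun j =>
      XX G (cls G c) j 1 ∪ XX G (cls G c) j 4) ∪
      ((univ : Finset (Fin 5)).biUnion fun i => univ.filter fun x : Fin 5 → V => x i ∈ rest G c) ∪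
      ((univ : Finset (Fin 5)).biUnion fun i =>
        univ.filter fun x : Fin 5 → V => x (i + 1) ∈ wr G c (x i)) := by
    intro x hx
    have hadj := (mem_cyc5.mp hx).2
    by_cases h1 : ∃ i, x i ∈ rest G c
    · obtain ⟨i, hi⟩ := h1
      apply Finset.mem_union_left
      apply Finset.mem_union_right
      simp only [Finset.mem_biUnion, Finset.mem_univ, true_and, Finset.mem_filter]
      exact ⟨i, hi⟩
    by_cases h2 : ∃ i, x (i + 1) ∈ wr G c (x i)
    · apply Finset.mem_union_right
      simpa only [Finset.mem_biUnion, Finset.mem_univ, true_and, Finset.mem_filter] using h2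
    push Not at h1 h2
    apply Finset.mem_union_left
    apply Finset.mem_union_left
    have h3 : ∀ i, ∃ j, x i ∈ cls G c j := by
      intro i
      have := h1 i
      rw [mem_rest] at this
      push Not at this
      exact this
    choose κ hκ using h3
    apply mem_union_XX κ hadj hκ
    intro i
    by_contra hcon
    exact h2 i (mem_wr.mpr ⟨hadj i, κ i, κ (i + 1), hκ i, hκ (i + 1), hcon⟩)
  refine le_trans (Finset.card_le_card hsub) ?_
  refine le_trans (Finset.card_union_le _ _) ?_
  refine Nat.add_le_add (le_trans (Finset.card_union_le _ _) ?_) ?_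
  · refine Nat.add_le_add (card_union_XX_le _) ?_
    refine le_trans Finset.card_biUnion_le ?_
    simp only [card_exc_rest]
    rw [Finset.sum_const, Finset.card_univ, Fintype.card_fin, smul_eq_mul]
  · refine le_trans Finset.card_biUnion_le ?_
    calc ∑ i : Fin 5, (univ.filter fun x : Fin 5 → V => x (i + 1) ∈ wr G c (x i)).card ≤
        ∑ _i : Fin 5, 2 * k * Fintype.card V ^ 4 :=
          Finset.sum_le_sum fun i _ => card_exc_wr _ (wr_card hk c) i
      _ = _ := by rw [Finset.sum_const, Finset.card_univ, Fintype.card_fin, smul_eq_mul]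

end Pool.Agent.LibPentagon
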