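import Pool.Agent.LibPentagon.Local

set_option autoImplicit false

open Finset

namespace Pool.Agent.LibPentagon

theorem amgm4 {a b c d s : ℝ} (ha : 0 ≤ a) (hb : 0 ≤ b) (hc : 0 ≤ c) (hd : 0 ≤ d)
    (hs : a + b + c + d ≤ s) : a * b * c * d ≤ (s / 4) ^ 4 := by
  have h1 : a * b ≤ ((a + b) / 2) ^ 2 := by nlinarith [sq_nonneg (a - b)]
  have h2 : c * d ≤ ((c + d) / 2) ^ 2 := by nlinarith [sq_nonneg (c - d)]
  have h3 : ((a + b) / 2) * ((c + d) / 2) ≤ (s / 4) ^ 2 := by
    have h4 : ((a + b) / 2) * ((c + d) / 2) ≤ ((a + b + c + d) / 4) ^ 2 := by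
      nlinarith [sq_nonneg (a + b - c - d)]
    have h5 : ((a + b + c + d) / 4) ^ 2 ≤ (s / 4) ^ 2 := by gcongr
    linarith
  calc a * b * c * d = (a * b) * (c * d) := by ring
    _ ≤ ((a + b) / 2) ^ 2 * ((c + d) / 2) ^ 2 := by gcongr
    _ = (((a + b) / 2) * ((c + d) / 2)) ^ 2 := by ring
    _ ≤ ((s / 4) ^ 2) ^ 2 := by gcongr
    _ = (s / 4) ^ 4 := by ring

theorem five_aux {y a b c d : ℝ} (hy : 0 ≤ y) (ha : 0 ≤ a) (hb : 0 ≤ b) (hc : 0 ≤ c) (hd : 0 ≤ d)
    (hs : y + a + b + c + d ≤ 1) :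
    y * (a * b * c * d) ≤ 1 / 3125 - (y - 1 / 5) ^ 2 * (1 / 2000) := by
  have h1 : a * b * c * d ≤ ((1 - y) / 4) ^ 4 := amgm4 ha hb hc hd (by linarith)
  have hy1 : y ≤ 1 := by linarith
  have h2 : y * (a * b * c * d) ≤ y * ((1 - y) / 4) ^ 4 := by gcongr
  have h3 : y * ((1 - y) / 4) ^ 4 = 1 / 3125 - (y - 1 / 5) ^ 2 *
      ((256 / 125 - 113 / 25 * y + 18 / 5 * y ^ 2 - y ^ 3) / 256) := by ring
  have h4 : (1 : ℝ) / 2000 ≤ (256 / 125 - 113 / 25 * y + 18 / 5 * y ^ 2 - y ^ 3) / 256 := by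
    have h5 : 0 ≤ (1 - y) * ((y - 1) ^ 2 + (113 / 25 - 18 / 5 * 1 + 0)) := by
      have : 0 ≤ (y - 1) ^ 2 := sq_nonneg _
      apply mul_nonneg <;> linarith
    nlinarith [mul_nonneg (sub_nonneg.mpr hy1) (sq_nonneg (y - 4 / 5)), hy, hy1]
  have h6 : (y - 1 / 5) ^ 2 * (1 / 2000) ≤ (y - 1 / 5) ^ 2 *
      ((256 / 125 - 113 / 25 * y + 18 / 5 * y ^ 2 - y ^ 3) / 256) := by
    gcongr
  linarith

theorem five_le {y a b c d : ℝ} (hy : 0 ≤ y) (ha : 0 ≤ a) (hb : 0 ≤ b) (hc : 0 ≤ c) (hd : 0 ≤ d)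
    (hs : y + a + b + c + d ≤ 1) : y * (a * b * c * d) ≤ 1 / 3125 := by
  have := five_aux hy ha hb hc hd hs
  have := sq_nonneg (y - 1 / 5)
  linarith

theorem five_size {y a b c d : ℝ} (hy : 0 ≤ y) (ha : 0 ≤ a) (hb : 0 ≤ b) (hc : 0 ≤ c) (hd : 0 ≤ d)
    (hs : y + a + b + c + d ≤ 1) (hP : 1 / 3125 - 11 / 10 ^ 9 ≤ y * (a * b * c * d)) :
    195 / 1000 ≤ y ∧ y ≤ 205 / 1000 := by
  have h1 := five_aux hy ha hb hc hd hs
  have h2 : (y - 1 / 5) ^ 2 ≤ (5 / 1000) ^ 2 := by
    norm_num at hP ⊢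
    linarith
  have h3 := abs_le_of_sq_le_sq' h2 (by norm_num)
  constructor <;> linarith [h3.1, h3.2]

theorem sizes {y : Fin 5 → ℝ} (hy : ∀ i, 0 ≤ y i) (hs : ∑ i, y i ≤ 1)
    (hP : 1 / 3125 - 11 / 10 ^ 9 ≤ ∏ i, y i) : ∀ i, 195 / 1000 ≤ y i ∧ y i ≤ 205 / 1000 := by
  rw [Fin.sum_univ_five] at hs
  rw [Fin.prod_univ_five] at hP
  have h0 := five_size (hy 0) (hy 1) (hy 2) (hy 3) (hy 4) (by linarith) (by linarith)
  have h1 := five_size (hy 1) (hy 0) (hy 2) (hy 3) (hy 4) (by linarith) (by linarith)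
  have h2 := five_size (hy 2) (hy 0) (hy 1) (hy 3) (hy 4) (by linarith) (by linarith)
  have h3 := five_size (hy 3) (hy 0) (hy 1) (hy 2) (hy 4) (by linarith) (by linarith)
  have h4 := five_size (hy 4) (hy 0) (hy 1) (hy 2) (hy 3) (by linarith) (by linarith)
  intro i
  fin_cases i
  · exact h0
  · exact h1
  · exact h2
  · exact h3
  · exact h4

theorem indep_pattern : ∀ q : Fin 5 → Bool, (∀ i, ¬ (q i = true ∧ q (i + 1) = true)) →
    ∃ i, ∀ j, q j = true → (j = i - 1 ∨ j = i + 1) := by decide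

/-- Numeric conclusion for one vertex. -/
theorem numeric {b : Fin 5 → ℝ} (hb0 : ∀ i, 0 ≤ b i) (hb1 : ∀ i, b i ≤ 205 / 1000)
    (hadj : ∀ i, b i * b (i + 1) ≤ 2 / 10 ^ 6) {ρ E : ℝ} (hρ : ρ ≤ 3 / 10 ^ 8) (hE : E ≤ 1 / 10 ^ 7)
    (hmain : 32 / 10000 - 2 / 10 ^ 12 ≤ 2 * ρ +
      ∑ i, ∑ j, FF 1 ((205 / 1000) ^ 2) E (j - i) * (b i * b j)) :
    ∃ i, 17 / 100 ≤ b (i - 1) ∧ 17 / 100 ≤ b (i + 1) := by
  have hE' : ∀ i, E * (b i * b i) ≤ 1 / 10 ^ 7 := by
    intro i
    have h1 : b i * b i ≤ 1 := by nlinarith [hb0 i, hb1 i]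
    have h0 : 0 ≤ b i * b i := mul_self_nonneg _
    nlinarith
  have hpair : ∀ i j, 0 ≤ b i * b j ∧ b i * b j ≤ 1 := by
    intro i j
    have := hb0 i; have := hb0 j; have := hb1 i; have := hb1 j
    constructor
    · positivity
    · nlinarith
  have hE2 : ∀ i j, E * (b i * b j) ≤ 1 / 10 ^ 7 := by
    intro i j
    obtain ⟨h0, h1⟩ := hpair i j
    nlinarith
  have e2 : ∀ i j, ((205 / 1000 : ℝ) ^ 2 + E) * (b i * b j) ≤ (205 / 1000) ^ 2 * (b i * b j) +
      1 / 10 ^ 7 := by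
    intro i j
    have := hE2 i j
    linarith
  have hsum : 378 / 10000 ≤ b 0 * b 2 + b 1 * b 3 + b 2 * b 4 + b 3 * b 0 + b 4 * b 1 := by
    simp only [Fin.sum_univ_five] at hmain
    have v00 : FF 1 ((205 / 1000) ^ 2) E (0 - 0) = E := rfl
    have v01 : FF 1 ((205 / 1000) ^ 2) E (1 - 0) = 1 ^ 2 := rfl
    have v02 : FF 1 ((205 / 1000) ^ 2) E (2 - 0) = (205 / 1000) ^ 2 + E := rfl
    have v03 : FF 1 ((205 / 1000) ^ 2) E (3 - 0) = (205 / 1000) ^ 2 + E := rfl
    have v04 : FF 1 ((205 / 1000) ^ 2) E (4 - 0) = 1 ^ 2 := rfl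
    have v10 : FF 1 ((205 / 1000) ^ 2) E (0 - 1) = 1 ^ 2 := rfl
    have v11 : FF 1 ((205 / 1000) ^ 2) E (1 - 1) = E := rfl
    have v12 : FF 1 ((205 / 1000) ^ 2) E (2 - 1) = 1 ^ 2 := rfl
    have v13 : FF 1 ((205 / 1000) ^ 2) E (3 - 1) = (205 / 1000) ^ 2 + E := rfl
    have v14 : FF 1 ((205 / 1000) ^ 2) E (4 - 1) = (205 / 1000) ^ 2 + E := rfl
    have v20 : FF 1 ((205 / 1000) ^ 2) E (0 - 2) = (205 / 1000) ^ 2 + E := rfl
    have v21 : FF 1 ((205 / 1000) ^ 2) E (1 - 2) = 1 ^ 2 := rfl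
    have v22 : FF 1 ((205 / 1000) ^ 2) E (2 - 2) = E := rfl
    have v23 : FF 1 ((205 / 1000) ^ 2) E (3 - 2) = 1 ^ 2 := rfl
    have v24 : FF 1 ((205 / 1000) ^ 2) E (4 - 2) = (205 / 1000) ^ 2 + E := rfl
    have v30 : FF 1 ((205 / 1000) ^ 2) E (0 - 3) = (205 / 1000) ^ 2 + E := rfl
    have v31 : FF 1 ((205 / 1000) ^ 2) E (1 - 3) = (205 / 1000) ^ 2 + E := rfl
    have v32 : FF 1 ((205 / 1000) ^ 2) E (2 - 3) = 1 ^ 2 := rfl
    have v33 : FF 1 ((205 / 1000) ^ 2) E (3 - 3) = E := rfl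
    have v34 : FF 1 ((205 / 1000) ^ 2) E (4 - 3) = 1 ^ 2 := rfl
    have v40 : FF 1 ((205 / 1000) ^ 2) E (0 - 4) = 1 ^ 2 := rfl
    have v41 : FF 1 ((205 / 1000) ^ 2) E (1 - 4) = (205 / 1000) ^ 2 + E := rfl
    have v42 : FF 1 ((205 / 1000) ^ 2) E (2 - 4) = (205 / 1000) ^ 2 + E := rfl
    have v43 : FF 1 ((205 / 1000) ^ 2) E (3 - 4) = 1 ^ 2 := rfl
    have v44 : FF 1 ((205 / 1000) ^ 2) E (4 - 4) = E := rfl
    rw [v00, v01, v02, v03, v04, v10, v11, v12, v13, v14, v20, v21, v22, v23, v24, v30, v31, v32,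
      v33, v34, v40, v41, v42, v43, v44] at hmain
    have a0 : b 0 * b 1 ≤ 2 / 10 ^ 6 := hadj 0
    have a1 : b 1 * b 2 ≤ 2 / 10 ^ 6 := hadj 1
    have a2 : b 2 * b 3 ≤ 2 / 10 ^ 6 := hadj 2
    have a3 : b 3 * b 4 ≤ 2 / 10 ^ 6 := hadj 3
    have a4 : b 4 * b 0 ≤ 2 / 10 ^ 6 := hadj 4
    have := hE' 0; have := hE' 1; have := hE' 2; have := hE' 3; have := hE' 4
    have := e2 0 2; have := e2 0 3; have := e2 1 3; have := e2 1 4; have := e2 2 0
    have := e2 2 4; have := e2 3 0; have := e2 3 1; have := e2 4 1; have := e2 4 2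
    norm_num at *
    linarith
  obtain ⟨i, hi⟩ := indep_pattern (fun i => decide (15 / 10000 < b i)) (by
    intro i
    simp only [decide_eq_true_eq, not_and, not_lt]
    intro h
    by_contra hcon
    push Not at hcon
    have h1 := hadj i
    have h2 : (15 / 10000 : ℝ) * (15 / 10000) ≤ b i * b (i + 1) :=
      mul_le_mul h.le hcon.le (by norm_num) (hb0 i)
    norm_num at h1 h2
    linarith)
  simp only [decide_eq_true_eq] at hi
  have hsmall : ∀ j, ¬ (j = i - 1 ∨ j = i + 1) → b j ≤ 15 / 10000 := by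
    intro j hj
    by_contra hcon
    push Not at hcon
    exact hj (hi j hcon)
  have hsm : ∀ j l, ¬ (j = i - 1 ∨ j = i + 1) → b j * b l ≤ 31 / 100000 := by
    intro j l hj
    have h1 := hsmall j hj
    have h2 := hb1 l
    calc b j * b l ≤ (15 / 10000) * (205 / 1000) :=
          mul_le_mul h1 h2 (hb0 l) (by norm_num)
      _ ≤ _ := by norm_num
  have hsm' : ∀ j l, ¬ (l = i - 1 ∨ l = i + 1) → b j * b l ≤ 31 / 100000 := by
    intro j l hl
    rw [mul_comm]; exact hsm l j hl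
  have hprod : 36 / 1000 ≤ b (i - 1) * b (i + 1) := by
    fin_cases i
    · have s1 := hsm 0 2 (by decide)
      have s2 := hsm' 1 3 (by decide)
      have s3 := hsm 2 4 (by decide)
      have s4 := hsm 3 0 (by decide)
      change 36 / 1000 ≤ b 4 * b 1
      linarith
    · have s1 := hsm 1 3 (by decide)
      have s2 := hsm' 2 4 (by decide)
      have s3 := hsm 3 0 (by decide)
      have s4 := hsm 4 1 (by decide)
      change 36 / 1000 ≤ b 0 * b 2
      linarith
    · have s1 := hsm' 0 2 (by decide)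
      have s2 := hsm 2 4 (by decide)
      have s3 := hsm' 3 0 (by decide)
      have s4 := hsm 4 1 (by decide)
      change 36 / 1000 ≤ b 1 * b 3
      linarith
    · have s1 := hsm 0 2 (by decide)
      have s2 := hsm 1 3 (by decide)
      have s3 := hsm 3 0 (by decide)
      have s4 := hsm' 4 1 (by decide)
      change 36 / 1000 ≤ b 2 * b 4
      linarith
    · have s1 := hsm' 0 2 (by decide)
      have s2 := hsm 1 3 (by decide)
      have s3 := hsm 2 4 (by decide)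
      have s4 := hsm 4 1 (by decide)
      change 36 / 1000 ≤ b 3 * b 0
      linarith
  refine ⟨i, ?_, ?_⟩
  · have h1 := hb1 (i + 1)
    have h0 := hb0 (i - 1)
    by_contra hcon
    push Not at hcon
    have : b (i - 1) * b (i + 1) ≤ (17 / 100) * (205 / 1000) :=
      mul_le_mul hcon.le h1 (hb0 _) (by norm_num)
    norm_num at this hprod
    linarith
  · have h1 := hb1 (i - 1)
    by_contra hcon
    push Not at hcon
    have : b (i - 1) * b (i + 1) ≤ (205 / 1000) * (17 / 100) :=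
      mul_le_mul h1 hcon.le (hb0 _) (by norm_num)
    norm_num at this hprod
    linarith

section graph

variable {V : Type*} [Fintype V] [DecidableEq V] {G : SimpleGraph V} [DecidableRel G.Adj]

theorem al_mul_le {k : ℕ} (hk : CodegLE G k) (c : Fin 5 → V) (v : V) (i : Fin 5) :
    al G c v i * al G c v (i + 1) ≤
      (miss G (cls G c i) (cls G c (i + 1))).card + Fintype.card V * k := by
  unfold al
  rw [← Finset.card_product]
  have hsub : (G.neighborFinset v ∩ cls G c i) ×ˢ (G.neighborFinset v ∩ cls G c (i + 1)) ⊆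
      miss G (cls G c i) (cls G c (i + 1)) ∪
        (G.neighborFinset v).biUnion fun a =>
          (G.neighborFinset v ∩ G.neighborFinset a).image fun b => (a, b) := by
    rintro ⟨a, b⟩ hab
    simp only [Finset.mem_product, Finset.mem_inter] at hab
    obtain ⟨⟨h1, h2⟩, h3, h4⟩ := hab
    by_cases hadj : G.Adj a b
    · apply Finset.mem_union_right
      rw [Finset.mem_biUnion]
      refine ⟨a, h1, Finset.mem_image.mpr ⟨b, ?_, rfl⟩⟩
      rw [Finset.mem_inter]
      exact ⟨h3, by simpa using hadj⟩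
    · apply Finset.mem_union_left
      simp only [miss, Finset.mem_filter, Finset.mem_product]
      exact ⟨⟨h2, h4⟩, hadj⟩
  refine (Finset.card_le_card hsub).trans ((Finset.card_union_le _ _).trans ?_)
  refine Nat.add_le_add le_rfl (Finset.card_biUnion_le.trans ?_)
  calc ∑ a ∈ G.neighborFinset v, ((G.neighborFinset v ∩ G.neighborFinset a).image
        fun b => (a, b)).card ≤ ∑ _a ∈ G.neighborFinset v, k := by
        apply Finset.sum_le_sum
        intro a ha
        exact Finset.card_image_le.trans (hk v a (by simpa using ha))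
    _ ≤ Fintype.card V * k := by
        rw [Finset.sum_const, smul_eq_mul]
        exact Nat.mul_le_mul_right _ (Finset.card_le_univ _)

theorem fin_aux8 : ∀ i j : Fin 5, ¬ (j = i + 1 ∨ j = i - 1) →
    ∃ w, (w = i - 1 ∨ w = i + 1) ∧ (w = j - 1 ∨ w = j + 1) := by decide

theorem sum_cls_le (c : Fin 5 → V) : ∑ i, (cls G c i).card ≤ Fintype.card V := by
  rw [← Finset.card_biUnion]
  · exact Finset.card_le_univ _
  · intro i _ j _ hij
    change Disjoint (cls G c i) (cls G c j)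
    rw [Finset.disjoint_left]
    intro v hi hj
    exact hij (cls_unique hi hj)

theorem prod_div5 {n : ℝ} (hn : 0 < n) (a : Fin 5 → ℝ) :
    ∏ i, a i = (∏ i, a i / n) * n ^ 5 := by
  rw [Finset.prod_div_distrib, Finset.prod_const, Finset.card_univ, Fintype.card_fin]
  field_simp

/-- **Structure theorem.** A graph of large order with bounded codegrees of edges in which every
vertex lies in almost `n ^ 4 / 625` pentagons is homomorphic to the pentagon. -/
theorem crux {k : ℕ} (hk : CodegLE G k)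
    (hn : 10 ^ 16 * ((k : ℝ) + 1) ≤ Fintype.card V)
    (hr : ∀ v, (32 / 10000 - 2 / 10 ^ 12) * (Fintype.card V : ℝ) ^ 4 ≤ rr G v) :
    ∃ κ : V → Fin 5, ∀ u v, G.Adj u v → (κ v = κ u + 1 ∨ κ v = κ u - 1) := by
  obtain ⟨c, hc, hdeg⟩ := exists_good_cycle hk hn hr
  set n : ℝ := (Fintype.card V : ℝ) with hndef
  have hk0 : (0 : ℝ) ≤ k := Nat.cast_nonneg k
  have hnpos : 0 < n := by nlinarith
  obtain ⟨q, hq⟩ : ∃ q : ℝ, (k : ℝ) = q * n := ⟨k / n, by field_simp⟩
  have hqn : q ≤ 1 / 10 ^ 16 := by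
    have : 10 ^ 16 * (q * n) ≤ n := by rw [← hq]; linarith
    have h6 : (10 ^ 16 * q) * n ≤ 1 * n := by linarith
    have := le_of_mul_le_mul_right h6 hnpos
    linarith
  -- the rest is small
  obtain ⟨ρ, hρ⟩ : ∃ ρ : ℝ, ((rest G c).card : ℝ) = ρ * n := ⟨(rest G c).card / n, by field_simp⟩
  have hρ1 : ρ ≤ 21 / 10 ^ 9 := by
    have h1 : (∑ i, (G.degree (c i) : ℝ)) + (rest G c).card ≤ 2 * n + 25 * k := by
      have := rest_card hk hc
      rw [hndef]
      exact_mod_cast this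
    rw [hρ, hq] at h1
    have h2 : ρ * n ≤ (2 / 10 ^ 8 + 25 * q) * n := by linarith
    have h3 := le_of_mul_le_mul_right h2 hnpos
    norm_num at hqn h3 ⊢
    linarith
  -- transversal count
  obtain ⟨t, ht⟩ : ∃ t : ℝ, ((TT G (cls G c)).card : ℝ) = t * n ^ 5 :=
    ⟨(TT G (cls G c)).card / n ^ 5, by field_simp⟩
  have ht1 : 1 / 3125 - 11 / 10 ^ 9 ≤ t := by
    have h1 : ((cyc5 G).card : ℝ) ≤ 10 * (TT G (cls G c)).card +
        5 * ((rest G c).card * n ^ 4) + 5 * (2 * k * n ^ 4) := by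
      have := card_cyc5_le_TT hk c
      rw [hndef]
      exact_mod_cast this
    have h5 : n * ((32 / 10000 - 2 / 10 ^ 12) * n ^ 4) ≤ ((cyc5 G).card : ℝ) := by
      rw [card_cyc5_eq]
      calc n * ((32 / 10000 - 2 / 10 ^ 12) * n ^ 4) =
          ∑ _v : V, ((32 / 10000 - 2 / 10 ^ 12) * n ^ 4) := by
            rw [Finset.sum_const, Finset.card_univ, nsmul_eq_mul]
        _ ≤ _ := Finset.sum_le_sum fun v _ => hr v
    rw [ht, hρ, hq] at h1
    have h2 : (32 / 10000 - 2 / 10 ^ 12) * n ^ 5 ≤ (10 * t + 5 * ρ + 10 * q) * n ^ 5 := by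
      linarith
    have h3 := le_of_mul_le_mul_right h2 (by positivity)
    norm_num at hqn h3 hρ1 ⊢
    linarith
  -- sizes of the classes
  have hsz0 : ∀ i, ((cls G c i).card : ℝ) = ((cls G c i).card / n) * n := fun i => by field_simp
  have hpr : t ≤ ∏ i, ((cls G c i).card / n : ℝ) := by
    have h1 : ((TT G (cls G c)).card : ℝ) ≤ ∏ i, ((cls G c i).card : ℝ) := by
      exact_mod_cast card_TT_le (cls G c)
    have h2 := prod_div5 hnpos (fun i => ((cls G c i).card : ℝ))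
    rw [ht, h2] at h1
    exact le_of_mul_le_mul_right h1 (by positivity)
  have hsum : ∑ i, ((cls G c i).card / n : ℝ) ≤ 1 := by
    rw [← Finset.sum_div, div_le_one hnpos, hndef]
    exact_mod_cast sum_cls_le c
  have hc0 : ∀ i, (0 : ℝ) ≤ (cls G c i).card / n := fun i =>
    div_nonneg (Nat.cast_nonneg _) hnpos.le
  have hsizes := sizes (y := fun i => ((cls G c i).card / n : ℝ)) (fun i => hc0 i) hsum
    (ht1.trans hpr)
  have hlo : ∀ i, 195 / 1000 * n ≤ (cls G c i).card := fun i => by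
    have := (hsizes i).1
    rwa [le_div_iff₀ hnpos] at this
  have hhi : ∀ i, ((cls G c i).card : ℝ) ≤ 205 / 1000 * n := fun i => by
    have := (hsizes i).2
    rwa [div_le_iff₀ hnpos] at this
  -- missing pairs
  have hmiss : ∀ i, ((miss G (cls G c i) (cls G c (i + 1))).card : ℝ) ≤ 15 / 10 ^ 7 * n ^ 2 := by
    intro i
    have h1 : ((TT G (cls G c)).card : ℝ) + (miss G (cls G c i) (cls G c (i + 1))).card *
        ((cls G c (i + 2)).card * ((cls G c (i + 3)).card * (cls G c (i + 4)).card)) ≤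
          ∏ i, ((cls G c i).card : ℝ) := by
      exact_mod_cast card_TT_add_miss' (cls G c) i
    have h2 : ∏ i, ((cls G c i).card : ℝ) ≤ 1 / 3125 * n ^ 5 := by
      have h3 := prod_div5 hnpos (fun i => ((cls G c i).card : ℝ))
      rw [h3]
      apply mul_le_mul_of_nonneg_right _ (by positivity)
      rw [Fin.sum_univ_five] at hsum
      rw [Fin.prod_univ_five]
      have h4 := five_le (y := (cls G c 0).card / n) (a := (cls G c 1).card / n)
        (b := (cls G c 2).card / n) (c := (cls G c 3).card / n) (d := (cls G c 4).card / n)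
        (hc0 0) (hc0 1) (hc0 2) (hc0 3) (hc0 4) hsum
      linarith
    have h3 : (195 / 1000 * n) * ((195 / 1000 * n) * (195 / 1000 * n)) ≤
        ((cls G c (i + 2)).card : ℝ) * ((cls G c (i + 3)).card * (cls G c (i + 4)).card) := by
      have h4 : (0 : ℝ) ≤ 195 / 1000 * n := mul_nonneg (by norm_num) hnpos.le
      exact mul_le_mul (hlo (i + 2)) (mul_le_mul (hlo (i + 3)) (hlo (i + 4)) h4
        (Nat.cast_nonneg _)) (mul_nonneg h4 h4) (Nat.cast_nonneg _)
    have h4 : ((miss G (cls G c i) (cls G c (i + 1))).card : ℝ) *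
        ((195 / 1000 * n) * ((195 / 1000 * n) * (195 / 1000 * n))) ≤ 11 / 10 ^ 9 * n ^ 5 := by
      have h5 : ((miss G (cls G c i) (cls G c (i + 1))).card : ℝ) *
        ((195 / 1000 * n) * ((195 / 1000 * n) * (195 / 1000 * n))) ≤
          ((miss G (cls G c i) (cls G c (i + 1))).card : ℝ) * (((cls G c (i + 2)).card : ℝ) *
            ((cls G c (i + 3)).card * (cls G c (i + 4)).card)) :=
        mul_le_mul_of_nonneg_left h3 (Nat.cast_nonneg _)
      have h6 : (1 / 3125 - 11 / 10 ^ 9) * n ^ 5 ≤ t * n ^ 5 := by gcongr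
      rw [ht] at h1
      linarith
    have h5 : (((miss G (cls G c i) (cls G c (i + 1))).card : ℝ) * (195 / 1000) ^ 3) * n ^ 3 ≤
        (11 / 10 ^ 9 * n ^ 2) * n ^ 3 := by linarith
    have h6 := le_of_mul_le_mul_right h5 (by positivity)
    have h7 : 0 ≤ n ^ 2 := sq_nonneg n
    norm_num at h6 ⊢
    linarith
  -- local structure of every vertex
  have hloc : ∀ v, ∃ i, 17 / 100 * n ≤ al G c v (i - 1) ∧ 17 / 100 * n ≤ al G c v (i + 1) := by
    intro v
    have hbd := rr_bound hk (c := c) (n := n) (U := (205 / 1000 * n) * (205 / 1000 * n))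
      (E := 1 / 10 ^ 7 * n ^ 2) hndef (by
        rw [hρ, hq]
        have h1 : (2 * ρ + 6 * q) * n ^ 2 ≤ 1 / 10 ^ 7 * n ^ 2 := by
          apply mul_le_mul_of_nonneg_right _ (sq_nonneg n)
          norm_num at hqn hρ1 ⊢
          linarith
        linarith) (fun i j => by
          have h4 : (0 : ℝ) ≤ 205 / 1000 * n := mul_nonneg (by norm_num) hnpos.le
          exact mul_le_mul (hhi i) (hhi j) (Nat.cast_nonneg _) h4) v
    have hr' := (hr v).trans hbd
    set b : Fin 5 → ℝ := fun i => (al G c v i : ℝ) / n with hb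
    have hal : ∀ i, (al G c v i : ℝ) = b i * n := fun i => by simp only [hb]; field_simp
    have hb0 : ∀ i, 0 ≤ b i := fun i => by positivity
    have hb1 : ∀ i, b i ≤ 205 / 1000 := by
      intro i
      have h1 : (al G c v i : ℝ) ≤ (cls G c i).card := by
        exact_mod_cast Finset.card_le_card Finset.inter_subset_right
      have h2 := h1.trans (hhi i)
      rw [hal] at h2
      exact le_of_mul_le_mul_right h2 hnpos
    have hadj : ∀ i, b i * b (i + 1) ≤ 2 / 10 ^ 6 := by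
      intro i
      have h1 : (al G c v i : ℝ) * al G c v (i + 1) ≤
          (miss G (cls G c i) (cls G c (i + 1))).card + n * k := by
        rw [hndef]
        exact_mod_cast al_mul_le hk c v i
      have h2 := hmiss i
      rw [hal, hal, hq] at h1
      have h3 : (b i * b (i + 1)) * n ^ 2 ≤ (15 / 10 ^ 7 + q) * n ^ 2 := by linarith
      have h4 := le_of_mul_le_mul_right h3 (by positivity)
      norm_num at hqn h4 ⊢
      linarith
    have hFF : ∀ t, FF n ((205 / 1000 * n) * (205 / 1000 * n)) (1 / 10 ^ 7 * n ^ 2) t =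
        FF 1 ((205 / 1000) ^ 2) (1 / 10 ^ 7) t * n ^ 2 := by
      intro t
      unfold FF
      fin_cases t
      · rfl
      · change n ^ 2 = 1 ^ 2 * n ^ 2; ring
      · change (205 / 1000 * n) * (205 / 1000 * n) + 1 / 10 ^ 7 * n ^ 2 =
          ((205 / 1000) ^ 2 + 1 / 10 ^ 7) * n ^ 2
        ring
      · change (205 / 1000 * n) * (205 / 1000 * n) + 1 / 10 ^ 7 * n ^ 2 =
          ((205 / 1000) ^ 2 + 1 / 10 ^ 7) * n ^ 2
        ring
      · change n ^ 2 = 1 ^ 2 * n ^ 2; ring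
    have hmain : 32 / 10000 - 2 / 10 ^ 12 ≤ 2 * ρ +
        ∑ i, ∑ j, FF 1 ((205 / 1000) ^ 2) (1 / 10 ^ 7) (j - i) * (b i * b j) := by
      have h1 : ∑ i, ∑ j, FF n ((205 / 1000 * n) * (205 / 1000 * n)) (1 / 10 ^ 7 * n ^ 2) (j - i) *
          ((al G c v i : ℝ) * al G c v j) =
          (∑ i, ∑ j, FF 1 ((205 / 1000) ^ 2) (1 / 10 ^ 7) (j - i) * (b i * b j)) * n ^ 4 := by
        rw [Finset.sum_mul]
        apply Finset.sum_congr rfl
        intro i _
        rw [Finset.sum_mul]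
        apply Finset.sum_congr rfl
        intro j _
        rw [hFF, hal, hal]
        ring
      rw [h1, hρ] at hr'
      have h2 : (32 / 10000 - 2 / 10 ^ 12) * n ^ 4 ≤ (2 * ρ +
        ∑ i, ∑ j, FF 1 ((205 / 1000) ^ 2) (1 / 10 ^ 7) (j - i) * (b i * b j)) * n ^ 4 := by
        linarith
      exact le_of_mul_le_mul_right h2 (by positivity)
    obtain ⟨i, hi1, hi2⟩ := numeric hb0 hb1 hadj (ρ := ρ) (E := 1 / 10 ^ 7)
      (hρ1.trans (by norm_num)) le_rfl hmain
    refine ⟨i, ?_, ?_⟩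
    · rw [hal]; gcongr
    · rw [hal]; gcongr
  choose κ hκ using hloc
  refine ⟨κ, fun u v huv => ?_⟩
  by_contra hcon
  obtain ⟨w, hw1, hw2⟩ := fin_aux8 (κ u) (κ v) hcon
  have hu : 17 / 100 * n ≤ al G c u w := by
    rcases hw1 with rfl | rfl
    · exact (hκ u).1
    · exact (hκ u).2
  have hv : 17 / 100 * n ≤ al G c v w := by
    rcases hw2 with h | h
    · rw [h]; exact (hκ v).1
    · rw [h]; exact (hκ v).2
  have h1 := hk u v huv
  have h2 : al G c u w + al G c v w ≤ (cls G c w).card + k := by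
    unfold al
    rw [← Finset.card_union_add_card_inter]
    refine Nat.add_le_add (Finset.card_le_card ?_) (le_trans (Finset.card_le_card ?_) h1)
    · exact Finset.union_subset Finset.inter_subset_right Finset.inter_subset_right
    · intro z hz
      simp only [Finset.mem_inter] at hz ⊢
      exact ⟨hz.1.1, hz.2.1⟩
  have h3 : (al G c u w : ℝ) + al G c v w ≤ (cls G c w).card + k := by exact_mod_cast h2
  have h4 := hhi w
  have h5 : (k : ℝ) ≤ 1 / 100 * n := by
    rw [hq]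
    apply mul_le_mul_of_nonneg_right _ hnpos.le
    norm_num at hqn ⊢
    linarith
  linarith

end graph

end Pool.Agent.LibPentagon
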