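import Mathlib

set_option autoImplicit false

namespace Pool.Agent.LibPentagon

/-- Index 5-tuples. -/
abbrev T5 := Fin 5 × Fin 5 × Fin 5 × Fin 5 × Fin 5

def L0 : List T5 :=
  [(2, 3, 4, 0, 1), (1, 3, 4, 0, 2), (1, 2, 4, 0, 3), (1, 2, 3, 0, 4), (0, 3, 4, 1, 2),
   (0, 2, 4, 1, 3), (0, 2, 3, 1, 4), (0, 1, 4, 2, 3), (0, 1, 3, 2, 4), (0, 1, 2, 3, 4)]

def L1 : List T5 :=
  [(3, 4, 2, 0, 1), (2, 4, 3, 0, 1), (2, 3, 4, 0, 1), (3, 4, 1, 0, 2), (1, 4, 3, 0, 2),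
   (1, 3, 4, 0, 2), (2, 4, 1, 0, 3), (1, 4, 2, 0, 3), (1, 2, 4, 0, 3), (2, 3, 1, 0, 4),
   (1, 3, 2, 0, 4), (1, 2, 3, 0, 4), (3, 4, 0, 1, 2), (0, 4, 3, 1, 2), (0, 3, 4, 1, 2),
   (2, 4, 0, 1, 3), (0, 4, 2, 1, 3), (0, 2, 4, 1, 3), (2, 3, 0, 1, 4), (0, 3, 2, 1, 4),
   (0, 2, 3, 1, 4), (1, 4, 0, 2, 3), (0, 4, 1, 2, 3), (0, 1, 4, 2, 3), (1, 3, 0, 2, 4),
   (0, 3, 1, 2, 4), (0, 1, 3, 2, 4), (1, 2, 0, 3, 4), (0, 2, 1, 3, 4), (0, 1, 2, 3, 4)]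

def L2 : List T5 :=
  [(2, 3, 4, 0, 1), (3, 2, 4, 0, 1), (4, 2, 3, 0, 1), (1, 3, 4, 0, 2), (3, 1, 4, 0, 2),
   (4, 1, 3, 0, 2), (1, 2, 4, 0, 3), (2, 1, 4, 0, 3), (4, 1, 2, 0, 3), (1, 2, 3, 0, 4),
   (2, 1, 3, 0, 4), (3, 1, 2, 0, 4), (0, 3, 4, 1, 2), (3, 0, 4, 1, 2), (4, 0, 3, 1, 2),
   (0, 2, 4, 1, 3), (2, 0, 4, 1, 3), (4, 0, 2, 1, 3), (0, 2, 3, 1, 4), (2, 0, 3, 1, 4),
   (3, 0, 2, 1, 4), (0, 1, 4, 2, 3), (1, 0, 4, 2, 3), (4, 0, 1, 2, 3), (0, 1, 3, 2, 4),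
   (1, 0, 3, 2, 4), (3, 0, 1, 2, 4), (0, 1, 2, 3, 4), (1, 0, 2, 3, 4), (2, 0, 1, 3, 4)]

def Lc : List T5 :=
  [(0, 1, 2, 3, 4), (0, 1, 2, 4, 3), (0, 1, 3, 2, 4), (0, 1, 3, 4, 2), (0, 1, 4, 2, 3),
   (0, 1, 4, 3, 2), (0, 2, 1, 3, 4), (0, 2, 1, 4, 3), (0, 2, 3, 1, 4), (0, 2, 4, 1, 3),
   (0, 3, 1, 2, 4), (0, 3, 2, 1, 4)]

/-- Linear forms on flags, given by a weight and the values on the eight adjacency patterns
`(a, b, c)` of the fourth vertex to the three roots, in the order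
`000, 100, 010, 001, 110, 101, 011, 111`. -/
structure Form where
  w : ℤ
  c000 : ℤ
  c100 : ℤ
  c010 : ℤ
  c001 : ℤ
  c110 : ℤ
  c101 : ℤ
  c011 : ℤ
  c111 : ℤ

def Form.val (F : Form) (a b c : Bool) : ℤ :=
  match a, b, c with
  | false, false, false => F.c000
  | true, false, false => F.c100
  | false, true, false => F.c010
  | false, false, true => F.c001
  | true, true, false => F.c110
  | true, false, true => F.c101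
  | false, true, true => F.c011
  | true, true, true => F.c111

/-- Forms for the empty type. -/
def F0 : List Form :=
  [⟨1784, 0, 1, 1, 1, -1, -1, -1, 0⟩,
   ⟨324, -2, 5, 5, 5, -4, -4, -4, 3⟩,
   -- D_x - D_y, D_x - D_z, D_y - D_z with D_x = [x only] - [y and z only]
   ⟨3758, 0, 1, -1, 0, 0, 1, -1, 0⟩,
   ⟨3758, 0, 1, 0, -1, 1, 0, -1, 0⟩,
   ⟨3758, 0, 0, 1, -1, 1, -1, 0, 0⟩]

/-- Forms for the type with one edge `xy`. -/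
def F1 : List Form :=
  [⟨1197, -2, 2, 2, 1, 0, -1, -1, 0⟩,
   ⟨435, -4, 4, 4, 1, 0, -2, -2, 0⟩,
   ⟨3177, -2, 1, 1, 2, 0, 0, 0, 0⟩,
   ⟨1752, -2, 2, 2, 2, 0, -1, -1, 0⟩,
   ⟨70902, 0, 0, 0, 0, 0, 1, -1, 0⟩,
   ⟨16587, 0, 1, -1, 0, 0, 3, -3, 0⟩]

/-- Forms for the type with edges `xy`, `xz`. -/
def F2 : List Form :=
  [⟨7020, -2, 1, -1, -1, 0, 0, 0, 0⟩,
   ⟨1017, -8, 2, -3, -3, 0, 0, 2, 0⟩,
   ⟨16821, 0, 0, 1, -1, 0, 0, 0, 0⟩]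

section parts

variable {ι : Type*} (p : ι → ι → Bool)

def quad (F : List Form) (x y z u v : ι) : ℤ :=
  (F.map fun f => f.w * (f.val (p x u) (p y u) (p z u) * f.val (p x v) (p y v) (p z v))).sum

def P0 (x y z u v : ι) : ℤ :=
  bif p x y || p x z || p y z then 0 else quad p F0 x y z u v

def P1 (x y z u v : ι) : ℤ :=
  bif p x y && !p x z && !p y z then quad p F1 x y z u v else 0

def P2 (x y z u v : ι) : ℤ :=
  bif p x y && p x z && !p y z then quad p F2 x y z u v else 0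

def PC (x y z u v : ι) : ℤ :=
  bif p x y && p y z && p z u && p u v && p v x then 1 else 0

def PE (_x _y _z u v : ι) : ℤ := bif p u v then 1 else 0

def PT (x y z _u _v : ι) : ℤ := bif p x y && p y z && p x z then 1 else 0

end parts

/-- Symmetrised integrand on patterns. -/
def G (p : Fin 5 → Fin 5 → Bool) : ℤ :=
  155520
    + (L0.map fun t => 4320 * PE p t.1 t.2.1 t.2.2.1 t.2.2.2.1 t.2.2.2.2
        - 12 * P0 p t.1 t.2.1 t.2.2.1 t.2.2.2.1 t.2.2.2.2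
        + 5380128 * PT p t.1 t.2.1 t.2.2.1 t.2.2.2.1 t.2.2.2.2).sum
    - (L1.map fun t => 4 * P1 p t.1 t.2.1 t.2.2.1 t.2.2.2.1 t.2.2.2.2).sum
    - (L2.map fun t => 4 * P2 p t.1 t.2.1 t.2.2.1 t.2.2.2.1 t.2.2.2.2).sum
    - (Lc.map fun t => 4500000 * PC p t.1 t.2.1 t.2.2.1 t.2.2.2.1 t.2.2.2.2).sum

def mk (a b c d e f g h i j : Bool) (x y : Fin 5) : Bool :=
  match x.val, y.val with
  | 0, 1 => a | 1, 0 => a
  | 0, 2 => b | 2, 0 => b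
  | 0, 3 => c | 3, 0 => c
  | 0, 4 => d | 4, 0 => d
  | 1, 2 => e | 2, 1 => e
  | 1, 3 => f | 3, 1 => f
  | 1, 4 => g | 4, 1 => g
  | 2, 3 => h | 3, 2 => h
  | 2, 4 => i | 4, 2 => i
  | 3, 4 => j | 4, 3 => j
  | _, _ => false

set_option maxRecDepth 100000 in
theorem G_nonneg_mk : ∀ a b c d e f g h i j : Bool, 0 ≤ G (mk a b c d e f g h i j) := by
  decide +kernel

end Pool.Agent.LibPentagon
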