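import Pool.Agent.LibPentagon.Flag

set_option autoImplicit false

open Finset

namespace Pool.Agent.LibPentagon

def toFun5 (t : T5) : Fin 5 → Fin 5 := ![t.1, t.2.1, t.2.2.1, t.2.2.2.1, t.2.2.2.2]

section sums

variable {V : Type*} [Fintype V]

/-- Sum over all 5-tuples. -/
def S5 (F : V → V → V → V → V → ℤ) : ℤ := ∑ x : Fin 5 → V, F (x 0) (x 1) (x 2) (x 3) (x 4)

theorem S5_perm (F : V → V → V → V → V → ℤ) (t : T5) (ht : Function.Injective (toFun5 t)) :
    ∑ x : Fin 5 → V, F (x t.1) (x t.2.1) (x t.2.2.1) (x t.2.2.2.1) (x t.2.2.2.2) = S5 F := by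
  have hb : Function.Bijective (toFun5 t) := Finite.injective_iff_bijective.mp ht
  let e : Fin 5 ≃ Fin 5 := Equiv.ofBijective _ hb
  unfold S5
  refine Fintype.sum_equiv (Equiv.arrowCongr e.symm (Equiv.refl V)) _ _ ?_
  intro x
  rfl

theorem S5_nested (F : V → V → V → V → V → ℤ) :
    S5 F = ∑ a, ∑ b, ∑ c, ∑ d, ∑ e, F a b c d e := by
  unfold S5
  let e : (Fin 5 → V) ≃ V × V × V × V × V :=
    { toFun := fun x => (x 0, x 1, x 2, x 3, x 4)
      invFun := fun y => ![y.1, y.2.1, y.2.2.1, y.2.2.2.1, y.2.2.2.2]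
      left_inv := by
        intro x; ext i; fin_cases i <;> rfl
      right_inv := by
        rintro ⟨a, b, c, d, e⟩; rfl }
  have h := Fintype.sum_equiv e (fun x => F (x 0) (x 1) (x 2) (x 3) (x 4))
    (fun y => F y.1 y.2.1 y.2.2.1 y.2.2.2.1 y.2.2.2.2) (fun x => rfl)
  rw [h]
  simp only [Fintype.sum_prod_type]

theorem L0_inj : ∀ t ∈ L0, Function.Injective (toFun5 t) := by decide +kernel
theorem L1_inj : ∀ t ∈ L1, Function.Injective (toFun5 t) := by decide +kernel
theorem L2_inj : ∀ t ∈ L2, Function.Injective (toFun5 t) := by decide +kernel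
theorem Lc_inj : ∀ t ∈ Lc, Function.Injective (toFun5 t) := by decide +kernel

theorem sum_list (L : List T5) (hL : ∀ t ∈ L, Function.Injective (toFun5 t))
    (F : V → V → V → V → V → ℤ) :
    ∑ x : Fin 5 → V, (L.map fun t =>
      F (x t.1) (x t.2.1) (x t.2.2.1) (x t.2.2.2.1) (x t.2.2.2.2)).sum = L.length * S5 F := by
  induction L with
  | nil => simp
  | cons t L ih =>
    simp only [List.map_cons, List.sum_cons, List.length_cons]
    rw [Finset.sum_add_distrib, S5_perm F t (hL t (by simp)),
      ih (fun t' ht' => hL t' (by simp [ht']))]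
    push_cast
    ring

end sums

section main

variable {V : Type*} [Fintype V] (p : V → V → Bool)

theorem quad_sum_nonneg (F : List Form) (hF : ∀ f ∈ F, 0 ≤ f.w) (x y z : V) :
    0 ≤ ∑ u, ∑ v, quad p F x y z u v := by
  unfold quad
  induction F with
  | nil => simp
  | cons f F ih =>
    simp only [List.map_cons, List.sum_cons, Finset.sum_add_distrib]
    have h1 : 0 ≤ ∑ u, ∑ v, f.w * (f.val (p x u) (p y u) (p z u) * f.val (p x v) (p y v) (p z v)) := by
      have h2 : ∑ u, ∑ v, f.w * (f.val (p x u) (p y u) (p z u) * f.val (p x v) (p y v) (p z v)) =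
          f.w * ((∑ u, f.val (p x u) (p y u) (p z u)) * (∑ v, f.val (p x v) (p y v) (p z v))) := by
        rw [Finset.sum_mul_sum, Finset.mul_sum]
        apply Finset.sum_congr rfl
        intro u _
        rw [Finset.mul_sum]
      rw [h2]
      have := hF f (by simp)
      have h3 := mul_self_nonneg (∑ u, f.val (p x u) (p y u) (p z u))
      positivity
    have h2 := ih (fun f' hf' => hF f' (by simp [hf']))
    linarith

theorem S5_P0_nonneg : 0 ≤ S5 (P0 p) := by
  rw [S5_nested]
  refine Finset.sum_nonneg fun x _ => Finset.sum_nonneg fun y _ => Finset.sum_nonneg fun z _ => ?_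
  unfold P0
  cases (p x y || p x z || p y z)
  · exact quad_sum_nonneg p F0 (by decide) x y z
  · simp

theorem S5_P1_nonneg : 0 ≤ S5 (P1 p) := by
  rw [S5_nested]
  refine Finset.sum_nonneg fun x _ => Finset.sum_nonneg fun y _ => Finset.sum_nonneg fun z _ => ?_
  unfold P1
  cases (p x y && !p x z && !p y z)
  · simp
  · exact quad_sum_nonneg p F1 (by decide) x y z

theorem S5_P2_nonneg : 0 ≤ S5 (P2 p) := by
  rw [S5_nested]
  refine Finset.sum_nonneg fun x _ => Finset.sum_nonneg fun y _ => Finset.sum_nonneg fun z _ => ?_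
  unfold P2
  cases (p x y && p x z && !p y z)
  · simp
  · exact quad_sum_nonneg p F2 (by decide) x y z

theorem G_nonneg (q : Fin 5 → Fin 5 → Bool) (hs : ∀ i j, q i j = q j i)
    (hi : ∀ i, q i i = false) : 0 ≤ G q := by
  have h : q = mk (q 0 1) (q 0 2) (q 0 3) (q 0 4) (q 1 2) (q 1 3) (q 1 4) (q 2 3) (q 2 4)
      (q 3 4) := by
    funext i j
    fin_cases i <;> fin_cases j <;> simp [mk, hi] <;> first | rfl | exact hs _ _
  rw [h]
  exact G_nonneg_mk _ _ _ _ _ _ _ _ _ _

/-- The flag algebra inequality, in counting form, before evaluating the simple sums. -/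
theorem flag_ineq_aux (hs : ∀ x y, p x y = p y x) (hi : ∀ x, p x x = false) :
    450000 * S5 (PC p) ≤ 1296 * (Fintype.card V : ℤ) ^ 5 + 360 * S5 (PE p) +
      448344 * S5 (PT p) := by
  have h0 : 0 ≤ ∑ x : Fin 5 → V, G (fun i j => p (x i) (x j)) :=
    Finset.sum_nonneg fun x _ => G_nonneg _ (fun i j => hs _ _) (fun i => hi _)
  have h1 : ∑ x : Fin 5 → V, G (fun i j => p (x i) (x j)) =
      155520 * (Fintype.card V : ℤ) ^ 5 +
        10 * (4320 * S5 (PE p) - 12 * S5 (P0 p) + 5380128 * S5 (PT p)) -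
        30 * (4 * S5 (P1 p)) - 30 * (4 * S5 (P2 p)) - 12 * (4500000 * S5 (PC p)) := by
    have e0 := sum_list L0 L0_inj (V := V) (fun a b c d e => 4320 * PE p a b c d e
      - 12 * P0 p a b c d e + 5380128 * PT p a b c d e)
    have e1 := sum_list L1 L1_inj (V := V) (fun a b c d e => 4 * P1 p a b c d e)
    have e2 := sum_list L2 L2_inj (V := V) (fun a b c d e => 4 * P2 p a b c d e)
    have e3 := sum_list Lc Lc_inj (V := V) (fun a b c d e => 4500000 * PC p a b c d e)
    have hsub : S5 (fun a b c d e => 4320 * PE p a b c d e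
      - 12 * P0 p a b c d e + 5380128 * PT p a b c d e) =
        4320 * S5 (PE p) - 12 * S5 (P0 p) + 5380128 * S5 (PT p) := by
      simp only [S5, Finset.sum_add_distrib, Finset.sum_sub_distrib, Finset.mul_sum]
    have hc : ∀ (c : ℤ) (F : V → V → V → V → V → ℤ),
        S5 (fun a b c' d e => c * F a b c' d e) = c * S5 F := by
      intro c F
      simp only [S5, Finset.mul_sum]
    rw [hsub] at e0
    rw [hc] at e1 e2 e3
    have hl0 : L0.length = 10 := by decide
    have hl1 : L1.length = 30 := by decide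
    have hl2 : L2.length = 30 := by decide
    have hl3 : Lc.length = 12 := by decide
    rw [hl0] at e0; rw [hl1] at e1; rw [hl2] at e2; rw [hl3] at e3
    have hconst : ∑ _x : Fin 5 → V, (155520 : ℤ) = 155520 * (Fintype.card V : ℤ) ^ 5 := by
      rw [Finset.sum_const, Finset.card_univ, Fintype.card_fun, Fintype.card_fin]
      simp [mul_comm]
    unfold G
    rw [Finset.sum_sub_distrib, Finset.sum_sub_distrib, Finset.sum_sub_distrib,
      Finset.sum_add_distrib, hconst]
    push_cast at e0 e1 e2 e3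
    rw [← e0, ← e1, ← e2, ← e3]
    rfl
  have := S5_P0_nonneg p
  have := S5_P1_nonneg p
  have := S5_P2_nonneg p
  linarith

end main

end Pool.Agent.LibPentagon
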