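import Pool.Agent.LibPentagon.Crux

set_option autoImplicit false

open Finset

namespace Pool.Agent.LibPentagon

/-- The product `∏ ⌊(n+i)/5⌋`. -/
def P5 (n : ℕ) : ℕ := ∏ i ∈ range 5, (n + i) / 5

theorem P5_eq (q r : ℕ) (hr : r < 5) : P5 (5 * q + r) = q ^ (5 - r) * (q + 1) ^ r := by
  unfold P5
  simp only [Finset.prod_range_succ, Finset.prod_range_zero, one_mul]
  interval_cases r
  · rw [show (5 * q + 0 + 0) / 5 = q by omega, show (5 * q + 0 + 1) / 5 = q by omega,
      show (5 * q + 0 + 2) / 5 = q by omega, show (5 * q + 0 + 3) / 5 = q by omega,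
      show (5 * q + 0 + 4) / 5 = q by omega]
    ring
  · rw [show (5 * q + 1 + 0) / 5 = q by omega, show (5 * q + 1 + 1) / 5 = q by omega,
      show (5 * q + 1 + 2) / 5 = q by omega, show (5 * q + 1 + 3) / 5 = q by omega,
      show (5 * q + 1 + 4) / 5 = q + 1 by omega]
    ring
  · rw [show (5 * q + 2 + 0) / 5 = q by omega, show (5 * q + 2 + 1) / 5 = q by omega,
      show (5 * q + 2 + 2) / 5 = q by omega, show (5 * q + 2 + 3) / 5 = q + 1 by omega,
      show (5 * q + 2 + 4) / 5 = q + 1 by omega]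
    ring
  · rw [show (5 * q + 3 + 0) / 5 = q by omega, show (5 * q + 3 + 1) / 5 = q by omega,
      show (5 * q + 3 + 2) / 5 = q + 1 by omega, show (5 * q + 3 + 3) / 5 = q + 1 by omega,
      show (5 * q + 3 + 4) / 5 = q + 1 by omega]
    ring
  · rw [show (5 * q + 4 + 0) / 5 = q by omega, show (5 * q + 4 + 1) / 5 = q + 1 by omega,
      show (5 * q + 4 + 2) / 5 = q + 1 by omega, show (5 * q + 4 + 3) / 5 = q + 1 by omega,
      show (5 * q + 4 + 4) / 5 = q + 1 by omega]
    ring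

theorem P5_succ (n : ℕ) : P5 n + (n / 5) ^ 4 ≤ P5 (n + 1) := by
  have h : P5 (n + 1) = ((n + 1) / 5 * ((n + 2) / 5) * ((n + 3) / 5) * ((n + 4) / 5)) * (n / 5 + 1) := by
    unfold P5
    simp only [Finset.prod_range_succ, Finset.prod_range_zero, one_mul, add_zero]
    rw [show n + 1 + 1 = n + 2 by ring, show n + 1 + 2 = n + 3 by ring,
      show n + 1 + 3 = n + 4 by ring, show (n + 1 + 4) / 5 = n / 5 + 1 by omega]
  have h2 : P5 n = ((n + 1) / 5 * ((n + 2) / 5) * ((n + 3) / 5) * ((n + 4) / 5)) * (n / 5) := by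
    unfold P5
    simp only [Finset.prod_range_succ, Finset.prod_range_zero, one_mul, add_zero]
    ring
  rw [h, h2, mul_add, mul_one]
  apply Nat.add_le_add_left
  have h1 : n / 5 ≤ (n + 1) / 5 := by omega
  have h3 : n / 5 ≤ (n + 2) / 5 := by omega
  have h4 : n / 5 ≤ (n + 3) / 5 := by omega
  have h5 : n / 5 ≤ (n + 4) / 5 := by omega
  calc (n / 5) ^ 4 = n / 5 * (n / 5) * (n / 5) * (n / 5) := by ring
    _ ≤ _ := by gcongr

/-- One-variable inequality behind the integer AM-GM. -/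
theorem tangent (q : ℕ) (hq : 1 ≤ q) (a : ℕ) :
    (a : ℝ) ≤ q * (((q : ℝ) + 1) / q) ^ ((a : ℤ) - q) := by
  have hq0 : (0 : ℝ) < q := by exact_mod_cast hq
  set ρ : ℝ := ((q : ℝ) + 1) / q with hρ
  have hρ0 : 0 < ρ := by positivity
  have hup : ∀ m : ℕ, ((q : ℝ) + 1 + m) ≤ q * ρ ^ (m + 1) := by
    intro m
    induction m with
    | zero => simp only [Nat.cast_zero, add_zero, zero_add, pow_one, hρ]; field_simp; rfl
    | succ m ih =>
      have h1 : ρ = 1 + 1 / q := by rw [hρ]; field_simp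
      calc ((q : ℝ) + 1 + (m + 1 : ℕ)) = (q + 1 + m) + 1 := by push_cast; ring
        _ ≤ (q + 1 + m) + (q + 1 + m) / q := by
          have : (1 : ℝ) ≤ (q + 1 + m) / q := by
            rw [le_div_iff₀ hq0]; linarith [(Nat.cast_nonneg m : (0 : ℝ) ≤ m)]
          linarith
        _ = (q + 1 + m) * ρ := by rw [h1]; field_simp
        _ ≤ (q * ρ ^ (m + 1)) * ρ := by gcongr
        _ = q * ρ ^ (m + 1 + 1) := by ring
  have hdown : ∀ m : ℕ, ((q : ℝ) - m) * ρ ^ m ≤ q := by
    intro m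
    induction m with
    | zero => simp
    | succ m ih =>
      rcases le_or_gt ((q : ℝ) - (m + 1 : ℕ)) 0 with h | h
      · have : ((q : ℝ) - (m + 1 : ℕ)) * ρ ^ (m + 1) ≤ 0 :=
          mul_nonpos_of_nonpos_of_nonneg h (by positivity)
        linarith
      · have h2 : ((q : ℝ) - (m + 1 : ℕ)) * ρ ≤ q - m := by
          have h1 : ρ = 1 + 1 / q := by rw [hρ]; field_simp
          rw [h1, mul_add, mul_one, mul_one_div]
          have : ((q : ℝ) - (m + 1 : ℕ)) / q ≤ 1 := by
            rw [div_le_one hq0]; push_cast; linarith [(Nat.cast_nonneg m : (0 : ℝ) ≤ m)]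
          push_cast at this ⊢
          linarith
        calc ((q : ℝ) - (m + 1 : ℕ)) * ρ ^ (m + 1) = (((q : ℝ) - (m + 1 : ℕ)) * ρ) * ρ ^ m := by ring
          _ ≤ (q - m) * ρ ^ m := by gcongr
          _ ≤ q := ih
  rcases le_or_gt a q with h | h
  · obtain ⟨m, rfl⟩ := Nat.exists_eq_add_of_le h
    have h1 : ((a : ℤ) - ((a + m : ℕ) : ℤ)) = -(m : ℤ) := by push_cast; ring
    rw [h1, zpow_neg, zpow_natCast, ← div_eq_mul_inv, le_div_iff₀ (by positivity)]
    have := hdown m
    push_cast at this ⊢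
    linarith
  · obtain ⟨m, rfl⟩ := Nat.exists_eq_add_of_lt h
    have h1 : (((q + m + 1 : ℕ) : ℤ) - (q : ℤ)) = ((m + 1 : ℕ) : ℤ) := by push_cast; ring
    rw [h1, zpow_natCast]
    have := hup m
    push_cast at this ⊢
    linarith

/-- Integer AM-GM for five parts. -/
theorem prod_le_P5 (a : Fin 5 → ℕ) {n : ℕ} (hn : ∑ i, a i = n) (h5 : 5 ≤ n) :
    ∏ i, a i ≤ P5 n := by
  obtain ⟨q, r, hr, hqr⟩ : ∃ q r, r < 5 ∧ n = 5 * q + r := ⟨n / 5, n % 5, by omega, by omega⟩
  have hq : 1 ≤ q := by omega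
  have hq0 : (0 : ℝ) < q := by exact_mod_cast hq
  rw [hqr, P5_eq q r hr]
  set ρ : ℝ := ((q : ℝ) + 1) / q with hρ
  have hρ0 : ρ ≠ 0 := by positivity
  have h1 : (∏ i, (a i : ℝ)) ≤ ∏ i, ((q : ℝ) * ρ ^ ((a i : ℤ) - q)) :=
    Finset.prod_le_prod (fun i _ => Nat.cast_nonneg _) (fun i _ => tangent q hq (a i))
  have h2 : ∏ i, ((q : ℝ) * ρ ^ ((a i : ℤ) - q)) = (q : ℝ) ^ 5 * ρ ^ r := by
    rw [Finset.prod_mul_distrib, Finset.prod_const, Finset.card_univ, Fintype.card_fin]
    congr 1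
    rw [Fin.prod_univ_five, ← zpow_add₀ hρ0, ← zpow_add₀ hρ0, ← zpow_add₀ hρ0, ← zpow_add₀ hρ0,
      ← zpow_natCast]
    congr 1
    rw [Fin.sum_univ_five] at hn
    have : ((a 0 + a 1 + a 2 + a 3 + a 4 : ℕ) : ℤ) = ((5 * q + r : ℕ) : ℤ) := by
      rw [hn, hqr]
    push_cast at this
    linarith
  have h3 : (q : ℝ) ^ 5 * ρ ^ r = (q : ℝ) ^ (5 - r) * ((q : ℝ) + 1) ^ r := by
    rw [hρ, div_pow]
    have : (q : ℝ) ^ 5 = (q : ℝ) ^ (5 - r) * (q : ℝ) ^ r := by
      rw [← pow_add]; congr 1; omega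
    rw [this]
    field_simp
  rw [h2, h3] at h1
  exact_mod_cast h1

section graph

universe u

/-- A homomorphism to the pentagon bounds the number of labelled 5-cycles. -/
theorem card_cyc5_le_of_hom {V : Type u} [Fintype V] [DecidableEq V] (G : SimpleGraph V)
    [DecidableRel G.Adj] (h5 : 5 ≤ Fintype.card V)
    (κ : V → Fin 5) (hκ : ∀ u v, G.Adj u v → (κ v = κ u + 1 ∨ κ v = κ u - 1)) :
    (cyc5 G).card ≤ 10 * P5 (Fintype.card V) := by
  let W : Fin 5 → Finset V := fun i => univ.filter fun v => κ v = i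
  have h1 : (cyc5 G).card ≤ 10 * (TT G W).card := by
    refine le_trans (Finset.card_le_card ?_) (card_union_XX_le (G := G) W)
    intro x hx
    have hadj := (mem_cyc5.mp hx).2
    exact mem_union_XX (fun i => κ (x i)) hadj (fun i => by simp [W]) (fun i => hκ _ _ (hadj i))
  have h2 := card_TT_le (G := G) W
  have h3 : ∑ i, (W i).card = Fintype.card V := by
    rw [← Finset.card_univ, Finset.card_eq_sum_card_fiberwise (f := κ) (t := univ)]
    intro v _
    simp
  have h4 := prod_le_P5 (fun i => (W i).card) h3 h5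
  omega

/-- Removing a vertex. -/
theorem card_cyc5_remove {V : Type u} [Fintype V] [DecidableEq V] (G : SimpleGraph V)
    [DecidableRel G.Adj] (v : V) :
    (cyc5 G).card ≤ (cyc5 (G.comap (Subtype.val : {x // x ≠ v} → V))).card + 5 * rr G v := by
  have hfib : ∀ i : Fin 5, ((cyc5 G).filter fun x => x i = v).card = rr G v := by
    intro i
    have h := sum_cyc5_rot (G := G) (fun w => if w = v then (1 : ℝ) else 0) i
    rw [← Finset.sum_filter, ← Finset.sum_filter, Finset.sum_const, Finset.sum_const,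
      nsmul_eq_mul, nsmul_eq_mul, mul_one, mul_one] at h
    exact_mod_cast h
  have hsub : cyc5 G ⊆ (cyc5 G).filter (fun x => ∀ i, x i ≠ v) ∪
      (univ : Finset (Fin 5)).biUnion fun i => (cyc5 G).filter fun x => x i = v := by
    intro x hx
    by_cases h : ∃ i, x i = v
    · apply Finset.mem_union_right
      obtain ⟨i, hi⟩ := h
      simp only [Finset.mem_biUnion, Finset.mem_univ, true_and, Finset.mem_filter]
      exact ⟨i, hx, hi⟩
    · apply Finset.mem_union_left
      push Not at h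
      exact Finset.mem_filter.mpr ⟨hx, h⟩
  refine (Finset.card_le_card hsub).trans ((Finset.card_union_le _ _).trans ?_)
  refine Nat.add_le_add ?_ ?_
  · have hinj : Function.Injective (fun (x : Fin 5 → {x // x ≠ v}) i => (x i : V)) := by
      intro x y hxy
      funext i
      exact Subtype.ext (congrFun hxy i)
    rw [← Finset.card_image_of_injective _ hinj]
    apply Finset.card_le_card
    intro x hx
    obtain ⟨hx1, hx2⟩ := Finset.mem_filter.mp hx
    obtain ⟨hi, hadj⟩ := mem_cyc5.mp hx1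
    rw [Finset.mem_image]
    refine ⟨fun i => ⟨x i, hx2 i⟩, ?_, rfl⟩
    rw [mem_cyc5]
    refine ⟨fun a b hab => hi (congrArg Subtype.val hab), fun i => ?_⟩
    exact hadj i
  · refine Finset.card_biUnion_le.trans ?_
    simp only [hfib]
    rw [Finset.sum_const, Finset.card_univ, Fintype.card_fin, smul_eq_mul]

theorem codeg_remove {V : Type u} [Fintype V] [DecidableEq V] (G : SimpleGraph V)
    [DecidableRel G.Adj] (v : V) {k : ℕ} (hk : CodegLE G k) :
    CodegLE (G.comap (Subtype.val : {x // x ≠ v} → V)) k := by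
  intro a b hab
  refine le_trans ?_ (hk a b hab)
  refine Finset.card_le_card_of_injOn Subtype.val ?_ Subtype.val_injective.injOn
  intro w hw
  simp only [Finset.coe_inter, Set.mem_inter_iff, Finset.mem_coe,
    SimpleGraph.mem_neighborFinset, SimpleGraph.comap_adj] at hw ⊢
  exact hw

/-- The error term. -/
noncomputable def err (N n : ℕ) : ℝ := max 0 ((1 + 1 / 10 ^ 12) * (N : ℝ) ^ 5 - 1 / 10 ^ 12 * (n : ℝ) ^ 5)

theorem err_step {N n : ℕ} : err N n ≤ err N (n + 1) + 5 / 10 ^ 12 * ((n : ℝ) + 1) ^ 4 := by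
  unfold err
  have hn : (0 : ℝ) ≤ n := Nat.cast_nonneg n
  apply max_le
  · positivity
  · have h1 := le_max_right (0 : ℝ) ((1 + 1 / 10 ^ 12) * (N : ℝ) ^ 5 - 1 / 10 ^ 12 * ((n + 1 : ℕ) : ℝ) ^ 5)
    have h2 : ((n : ℝ) + 1) ^ 5 ≤ (n : ℝ) ^ 5 + 5 * ((n : ℝ) + 1) ^ 4 := by
      have : 0 ≤ 10 * (n : ℝ) ^ 3 + 20 * (n : ℝ) ^ 2 + 15 * n + 4 := by positivity
      nlinarith
    push_cast at h1 ⊢
    linarith

theorem induct {k : ℕ} {N : ℕ} (hN : 10 ^ 16 * (k + 1) ≤ N) (m : ℕ) :
    ∀ (V : Type u) [Fintype V] [DecidableEq V] (G : SimpleGraph V) [DecidableRel G.Adj],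
      Fintype.card V = N + m → CodegLE G k →
      ((cyc5 G).card : ℝ) ≤ 10 * P5 (Fintype.card V) + err N (Fintype.card V) := by
  induction m with
  | zero =>
    intro V _ _ G _ hV _
    have h1 : (cyc5 G).card ≤ Fintype.card V ^ 5 := by
      refine (Finset.card_le_univ _).trans ?_
      rw [Fintype.card_fun, Fintype.card_fin]
    have h2 : (N : ℝ) ^ 5 ≤ err N (Fintype.card V) := by
      unfold err
      rw [hV]
      refine le_trans ?_ (le_max_right _ _)
      push_cast
      ring_nf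
      exact le_rfl
    have h3 : ((cyc5 G).card : ℝ) ≤ (N : ℝ) ^ 5 := by
      have : ((cyc5 G).card : ℝ) ≤ (Fintype.card V : ℝ) ^ 5 := by exact_mod_cast h1
      rwa [hV, add_zero] at this
    have h4 : (0 : ℝ) ≤ 10 * P5 (Fintype.card V) := by positivity
    linarith
  | succ m ih =>
    intro V _ _ G _ hV hk
    have hcast : (10 : ℝ) ^ 16 * ((k : ℝ) + 1) ≤ Fintype.card V := by
      have : 10 ^ 16 * (k + 1) ≤ Fintype.card V := by omega
      exact_mod_cast this
    have herr : 0 ≤ err N (Fintype.card V) := le_max_left _ _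
    by_cases hr : ∀ v, (32 / 10000 - 2 / 10 ^ 12) * (Fintype.card V : ℝ) ^ 4 ≤ rr G v
    · obtain ⟨κ, hκ⟩ := crux hk hcast hr
      have h5 : 5 ≤ Fintype.card V := by omega
      have h1 := card_cyc5_le_of_hom G h5 κ hκ
      have h2 : ((cyc5 G).card : ℝ) ≤ 10 * P5 (Fintype.card V) := by exact_mod_cast h1
      linarith
    · push Not at hr
      obtain ⟨v, hv⟩ := hr
      have hcard : Fintype.card {x // x ≠ v} = N + m := by
        have := Fintype.card_subtype_compl (fun x => x = v)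
        simp only [Fintype.card_subtype_eq] at this
        change Fintype.card {x // ¬ x = v} = N + m
        omega
      have h1 := ih {x // x ≠ v} (G.comap (Subtype.val : {x // x ≠ v} → V)) hcard
        (codeg_remove G v hk)
      have h2 := card_cyc5_remove G v
      have h3 : ((cyc5 G).card : ℝ) ≤
          (cyc5 (G.comap (Subtype.val : {x // x ≠ v} → V))).card + 5 * rr G v := by
        exact_mod_cast h2
      set n := N + m with hn
      have hVn : Fintype.card V = n + 1 := by omega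
      rw [hcard] at h1
      rw [hVn] at hv ⊢
      have h4 : (P5 n : ℝ) + ((n / 5 : ℕ) : ℝ) ^ 4 ≤ P5 (n + 1) := by exact_mod_cast P5_succ n
      have h5 : (((n : ℝ) - 4) / 5) ≤ ((n / 5 : ℕ) : ℝ) := by
        have : n ≤ 5 * (n / 5) + 4 := by omega
        have h6 : (n : ℝ) ≤ 5 * ((n / 5 : ℕ) : ℝ) + 4 := by exact_mod_cast this
        linarith
      have h6 := err_step (N := N) (n := n)
      have hbig : (10 : ℝ) ^ 15 ≤ n := by
        have : 10 ^ 15 ≤ n := by omega
        exact_mod_cast this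
      have h7 : (((n : ℝ) - 4) / 5) ^ 4 ≤ ((n / 5 : ℕ) : ℝ) ^ 4 := by
        have : (0 : ℝ) ≤ ((n : ℝ) - 4) / 5 := by
          apply div_nonneg _ (by norm_num)
          have : (10 : ℝ) ^ 15 = 1000000000000000 := by norm_num
          linarith
        exact pow_le_pow_left₀ this h5 4
      have h8 : (5 * (32 / 10000 - 2 / 10 ^ 12) + 5 / 10 ^ 12) * ((n : ℝ) + 1) ^ 4 ≤
          10 * (((n : ℝ) - 4) / 5) ^ 4 := by
        set x : ℝ := (n : ℝ) + 1 with hx
        have hx1 : (n : ℝ) - 4 = x - 5 := by rw [hx]; ring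
        rw [hx1]
        have hxbig : (10 : ℝ) ^ 15 ≤ x := by linarith
        have hx0 : 0 < x := lt_of_lt_of_le (by norm_num) hxbig
        have e1 : (x - 5) ^ 4 ≥ x ^ 4 - 20 * x ^ 3 := by nlinarith [sq_nonneg (x - 5), hxbig]
        have e2 : x ^ 3 ≤ (1 / 10 ^ 15) * x ^ 4 := by
          have : x ^ 3 * 10 ^ 15 ≤ x ^ 3 * x := by gcongr
          have e3 : x ^ 3 * x = x ^ 4 := by ring
          rw [e3] at this
          norm_num at this ⊢
          linarith
        have e4 : 0 < x ^ 4 := by positivity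
        have e5 : 10 * ((x - 5) / 5) ^ 4 = 16 / 1000 * (x - 5) ^ 4 := by ring
        rw [e5]
        norm_num at e2 ⊢
        nlinarith
      push_cast at hv ⊢
      norm_num at hv h8 h6 ⊢
      linarith

theorem main_bound {k : ℕ} {V : Type u} [Fintype V] [DecidableEq V] (G : SimpleGraph V)
    [DecidableRel G.Adj] (hV : 10 ^ 19 * (k + 1) ≤ Fintype.card V) (hk : CodegLE G k) :
    (cyc5 G).card ≤ 10 * P5 (Fintype.card V) := by
  obtain ⟨m, hm⟩ : ∃ m, Fintype.card V = 10 ^ 16 * (k + 1) + m :=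
    Nat.exists_eq_add_of_le (le_trans (Nat.mul_le_mul_right _ (by norm_num)) hV)
  have h1 := induct (k := k) (N := 10 ^ 16 * (k + 1)) le_rfl m V G hm hk
  have h2 : err (10 ^ 16 * (k + 1)) (Fintype.card V) = 0 := by
    unfold err
    apply max_eq_left
    have h3 : (10 : ℝ) ^ 19 * ((k : ℝ) + 1) ≤ Fintype.card V := by exact_mod_cast hV
    have h4 : ((10 : ℝ) ^ 19 * ((k : ℝ) + 1)) ^ 5 ≤ (Fintype.card V : ℝ) ^ 5 := by gcongr
    have h5 : ((10 : ℝ) ^ 19 * ((k : ℝ) + 1)) ^ 5 = 10 ^ 15 * ((10 : ℝ) ^ 16 * ((k : ℝ) + 1)) ^ 5 := by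
      ring
    have h6 : (0 : ℝ) ≤ ((10 : ℝ) ^ 16 * ((k : ℝ) + 1)) ^ 5 := by positivity
    push_cast
    rw [h5] at h4
    set y := ((10 : ℝ) ^ 16 * ((k : ℝ) + 1)) ^ 5
    norm_num at h4 ⊢
    linarith
  rw [h2, add_zero] at h1
  exact_mod_cast h1

end graph

end Pool.Agent.LibPentagon
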