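import Pool.Agent.LibPentagon.Count

set_option autoImplicit false

open Finset

namespace Pool.Agent.LibPentagon

variable {V : Type*} [Fintype V] [DecidableEq V] {G : SimpleGraph V} [DecidableRel G.Adj]

/-- Walks of length three from `a` to `e`. -/
def DD (G : SimpleGraph V) [DecidableRel G.Adj] (a e : V) : Finset (V × V) :=
  univ.filter fun p => G.Adj a p.1 ∧ G.Adj p.1 p.2 ∧ G.Adj p.2 e

omit [DecidableEq V] in
theorem mem_DD {a e : V} {p : V × V} :
    p ∈ DD G a e ↔ G.Adj a p.1 ∧ G.Adj p.1 p.2 ∧ G.Adj p.2 e := by simp [DD]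

theorem rr_le (v : V) :
    rr G v ≤ ∑ a ∈ G.neighborFinset v, ∑ e ∈ G.neighborFinset v, (DD G a e).card := by
  rw [← Finset.sum_product', ← Finset.card_sigma]
  unfold rr
  refine Finset.card_le_card_of_injOn (fun x => ⟨(x 1, x 4), (x 2, x 3)⟩) ?_ ?_
  · intro x hx
    obtain ⟨hx, h0⟩ := Finset.mem_filter.mp hx
    have h := (mem_cyc5.mp hx).2
    have a0 : G.Adj (x 0) (x 1) := h 0
    have a1 : G.Adj (x 1) (x 2) := h 1
    have a2 : G.Adj (x 2) (x 3) := h 2
    have a3 : G.Adj (x 3) (x 4) := h 3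
    have a4 : G.Adj (x 4) (x 0) := h 4
    rw [h0] at a0 a4
    simp only [Finset.mem_coe, Finset.mem_sigma, Finset.mem_product,
      SimpleGraph.mem_neighborFinset, mem_DD]
    exact ⟨⟨a0, a4.symm⟩, a1, a2, a3⟩
  · intro x hx y hy hxy
    obtain ⟨_, hx0⟩ := Finset.mem_filter.mp hx
    obtain ⟨_, hy0⟩ := Finset.mem_filter.mp hy
    simp only [Sigma.mk.injEq, Prod.mk.injEq, heq_eq_eq] at hxy
    funext i
    fin_cases i
    · exact hx0.trans hy0.symm
    · exact hxy.1.1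
    · exact hxy.2.1
    · exact hxy.2.2
    · exact hxy.1.2

/-- Exceptional pairs. -/
def Exc (G : SimpleGraph V) [DecidableRel G.Adj] (c : Fin 5 → V) (a e : V) : Finset (V × V) :=
  (rest G c ×ˢ univ) ∪ (univ ×ˢ rest G c) ∪ (wr G c a ×ˢ univ) ∪ (univ ×ˢ wr G c e) ∪
    (univ.filter fun p => p.2 ∈ wr G c p.1)

theorem Exc_card {k : ℕ} (hk : CodegLE G k) (c : Fin 5 → V) (a e : V) :
    (Exc G c a e).card ≤ 2 * (rest G c).card * Fintype.card V + 6 * k * Fintype.card V := by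
  unfold Exc
  have h1 : (univ.filter fun p : V × V => p.2 ∈ wr G c p.1).card ≤ 2 * k * Fintype.card V := by
    have : (univ.filter fun p : V × V => p.2 ∈ wr G c p.1) =
        (univ : Finset V).biUnion fun b => (wr G c b).image fun d => (b, d) := by
      ext ⟨b, d⟩
      simp
    rw [this]
    refine le_trans Finset.card_biUnion_le ?_
    calc ∑ b : V, ((wr G c b).image fun d => (b, d)).card ≤ ∑ _b : V, 2 * k :=
          Finset.sum_le_sum fun b _ => le_trans Finset.card_image_le (wr_card hk c b)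
      _ = _ := by rw [Finset.sum_const, Finset.card_univ, smul_eq_mul, mul_comm]
  have h2 := wr_card hk c a
  have h3 := wr_card hk c e
  refine le_trans (Finset.card_union_le _ _) ?_
  refine le_trans (Nat.add_le_add (Finset.card_union_le _ _) le_rfl) ?_
  refine le_trans (Nat.add_le_add (Nat.add_le_add (Finset.card_union_le _ _) le_rfl) le_rfl) ?_
  refine le_trans (Nat.add_le_add (Nat.add_le_add (Nat.add_le_add (Finset.card_union_le _ _)
    le_rfl) le_rfl) le_rfl) ?_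
  simp only [Finset.card_product, Finset.card_univ]
  have h4 : (wr G c a).card * Fintype.card V ≤ 2 * k * Fintype.card V :=
    Nat.mul_le_mul_right _ h2
  have h5 : Fintype.card V * (wr G c e).card ≤ 2 * k * Fintype.card V := by
    rw [mul_comm]; exact Nat.mul_le_mul_right _ h3
  have h6 : Fintype.card V * (rest G c).card = (rest G c).card * Fintype.card V := mul_comm _ _
  rw [h6]
  nlinarith

theorem DD_classes {c : Fin 5 → V} {a e : V} {i j : Fin 5} (ha : a ∈ cls G c i)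
    (he : e ∈ cls G c j) {p : V × V} (hp : p ∈ DD G a e) (hE : p ∉ Exc G c a e) :
    ∃ i1 i2, p.1 ∈ cls G c i1 ∧ p.2 ∈ cls G c i2 ∧ (i1 = i + 1 ∨ i1 = i - 1) ∧
      (i2 = i1 + 1 ∨ i2 = i1 - 1) ∧ (i2 = j + 1 ∨ i2 = j - 1) := by
  obtain ⟨b, d⟩ := p
  obtain ⟨hab, hbd, hde⟩ := mem_DD.mp hp
  simp only [Exc, Finset.mem_union, Finset.mem_product, Finset.mem_univ, Finset.mem_filter,
    true_and, and_true, not_or] at hE
  obtain ⟨⟨⟨⟨h1, h2⟩, h3⟩, h4⟩, h5⟩ := hE
  rw [mem_rest] at h1 h2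
  push Not at h1 h2
  obtain ⟨i1, hi1⟩ := h1
  obtain ⟨i2, hi2⟩ := h2
  refine ⟨i1, i2, hi1, hi2, ?_, ?_, ?_⟩
  · by_contra hcon
    exact h3 (mem_wr.mpr ⟨hab, i, i1, ha, hi1, hcon⟩)
  · by_contra hcon
    exact h5 (mem_wr.mpr ⟨hbd, i1, i2, hi1, hi2, hcon⟩)
  · by_contra hcon
    exact h4 (mem_wr.mpr ⟨hde.symm, j, i2, he, hi2, hcon⟩)

theorem fin_aux5 : ∀ i i1 i2 : Fin 5, (i1 = i + 1 ∨ i1 = i - 1) → (i2 = i1 + 1 ∨ i2 = i1 - 1) →
    (i2 = i + 1 ∨ i2 = i - 1) → False := by decide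

theorem fin_aux6 : ∀ i i1 i2 : Fin 5, (i1 = i + 1 ∨ i1 = i - 1) → (i2 = i1 + 1 ∨ i2 = i1 - 1) →
    (i2 = i + 2 + 1 ∨ i2 = i + 2 - 1) → i1 = i - 1 ∧ i2 = i - 2 := by decide

theorem fin_aux7 : ∀ i i1 i2 : Fin 5, (i1 = i + 1 ∨ i1 = i - 1) → (i2 = i1 + 1 ∨ i2 = i1 - 1) →
    (i2 = i + 3 + 1 ∨ i2 = i + 3 - 1) → i1 = i + 1 ∧ i2 = i + 2 := by decide

theorem DD_same {k : ℕ} (hk : CodegLE G k) {c : Fin 5 → V} {a e : V} {i : Fin 5}
    (ha : a ∈ cls G c i) (he : e ∈ cls G c i) :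
    (DD G a e).card ≤ 2 * (rest G c).card * Fintype.card V + 6 * k * Fintype.card V := by
  refine le_trans (Finset.card_le_card ?_) (Exc_card hk c a e)
  intro p hp
  by_contra hE
  obtain ⟨i1, i2, _, _, h1, h2, h3⟩ := DD_classes ha he hp hE
  exact fin_aux5 i i1 i2 h1 h2 h3

theorem DD_two {k : ℕ} (hk : CodegLE G k) {c : Fin 5 → V} {a e : V} {i : Fin 5}
    (ha : a ∈ cls G c i) (he : e ∈ cls G c (i + 2)) :
    (DD G a e).card ≤ (cls G c (i - 1)).card * (cls G c (i - 2)).card +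
      (2 * (rest G c).card * Fintype.card V + 6 * k * Fintype.card V) := by
  have hsub : DD G a e ⊆ (cls G c (i - 1) ×ˢ cls G c (i - 2)) ∪ Exc G c a e := by
    intro p hp
    rw [Finset.mem_union]
    by_contra hcon
    rw [not_or] at hcon
    obtain ⟨i1, i2, m1, m2, h1, h2, h3⟩ := DD_classes ha he hp hcon.2
    obtain ⟨rfl, rfl⟩ := fin_aux6 i i1 i2 h1 h2 h3
    exact hcon.1 (Finset.mem_product.mpr ⟨m1, m2⟩)
  refine le_trans (Finset.card_le_card hsub) (le_trans (Finset.card_union_le _ _) ?_)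
  rw [Finset.card_product]
  exact Nat.add_le_add le_rfl (Exc_card hk c a e)

theorem DD_three {k : ℕ} (hk : CodegLE G k) {c : Fin 5 → V} {a e : V} {i : Fin 5}
    (ha : a ∈ cls G c i) (he : e ∈ cls G c (i + 3)) :
    (DD G a e).card ≤ (cls G c (i + 1)).card * (cls G c (i + 2)).card +
      (2 * (rest G c).card * Fintype.card V + 6 * k * Fintype.card V) := by
  have hsub : DD G a e ⊆ (cls G c (i + 1) ×ˢ cls G c (i + 2)) ∪ Exc G c a e := by
    intro p hp
    rw [Finset.mem_union]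
    by_contra hcon
    rw [not_or] at hcon
    obtain ⟨i1, i2, m1, m2, h1, h2, h3⟩ := DD_classes ha he hp hcon.2
    obtain ⟨rfl, rfl⟩ := fin_aux7 i i1 i2 h1 h2 h3
    exact hcon.1 (Finset.mem_product.mpr ⟨m1, m2⟩)
  refine le_trans (Finset.card_le_card hsub) (le_trans (Finset.card_union_le _ _) ?_)
  rw [Finset.card_product]
  exact Nat.add_le_add le_rfl (Exc_card hk c a e)

omit [DecidableEq V] in
theorem DD_le (a e : V) : (DD G a e).card ≤ Fintype.card V ^ 2 := by
  refine le_trans (Finset.card_le_univ _) ?_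
  rw [Fintype.card_prod, sq]

/-- The weight function. -/
def FF (n U E : ℝ) (t : Fin 5) : ℝ := ![E, n ^ 2, U + E, U + E, n ^ 2] t

theorem DD_pointwise {k : ℕ} (hk : CodegLE G k) {c : Fin 5 → V} {n U E : ℝ}
    (hn : n = Fintype.card V) (hE : 2 * ((rest G c).card : ℝ) * n + 6 * k * n ≤ E)
    (hU : ∀ i j, ((cls G c i).card : ℝ) * (cls G c j).card ≤ U) (a e : V) :
    ((DD G a e).card : ℝ) ≤ n ^ 2 * ((if a ∈ rest G c then 1 else 0) + (if e ∈ rest G c then 1 else 0)) +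
      ∑ i, ∑ j, FF n U E (j - i) * ((if a ∈ cls G c i then 1 else 0) * (if e ∈ cls G c j then 1 else 0)) := by
  have hn0 : 0 ≤ n := by rw [hn]; exact Nat.cast_nonneg _
  have hE0 : 0 ≤ E := le_trans (by positivity) hE
  have hU0 : 0 ≤ U := le_trans (by positivity) (hU 0 0)
  have hFF : ∀ t, 0 ≤ FF n U E t := by
    intro t
    unfold FF
    fin_cases t
    · exact hE0
    · exact sq_nonneg n
    · exact add_nonneg hU0 hE0
    · exact add_nonneg hU0 hE0
    · exact sq_nonneg n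
  have hsum0 : 0 ≤ ∑ i, ∑ j, FF n U E (j - i) *
      ((if a ∈ cls G c i then (1 : ℝ) else 0) * (if e ∈ cls G c j then 1 else 0)) := by
    refine Finset.sum_nonneg fun i _ => Finset.sum_nonneg fun j _ => mul_nonneg (hFF _) ?_
    split_ifs <;> norm_num
  have hD : ((DD G a e).card : ℝ) ≤ n ^ 2 := by
    rw [hn]; exact_mod_cast DD_le a e
  by_cases ha : a ∈ rest G c
  · have : (0 : ℝ) ≤ n ^ 2 * (if e ∈ rest G c then 1 else 0) := by
      split_ifs <;> simp; positivity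
    simp only [ha, if_true]
    rw [mul_add, mul_one]
    linarith
  by_cases he : e ∈ rest G c
  · have : (0 : ℝ) ≤ n ^ 2 * (if a ∈ rest G c then 1 else 0) := by
      simp [ha]
    simp only [he, if_true]
    rw [mul_add, mul_one]
    linarith
  simp only [ha, he, if_false, add_zero, mul_zero, zero_add]
  rw [mem_rest] at ha he
  push Not at ha he
  obtain ⟨i, hi⟩ := ha
  obtain ⟨j, hj⟩ := he
  have hsingle : FF n U E (j - i) ≤ ∑ i, ∑ j, FF n U E (j - i) *
      ((if a ∈ cls G c i then (1 : ℝ) else 0) * (if e ∈ cls G c j then 1 else 0)) := by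
    have h1 : ∀ i' ∈ (univ : Finset (Fin 5)), 0 ≤ ∑ j, FF n U E (j - i') *
      ((if a ∈ cls G c i' then (1 : ℝ) else 0) * (if e ∈ cls G c j then 1 else 0)) := by
      intro i' _
      refine Finset.sum_nonneg fun j _ => mul_nonneg (hFF _) ?_
      split_ifs <;> norm_num
    refine le_trans ?_ (Finset.single_le_sum h1 (Finset.mem_univ i))
    have h2 : ∀ j' ∈ (univ : Finset (Fin 5)), 0 ≤ FF n U E (j' - i) *
      ((if a ∈ cls G c i then (1 : ℝ) else 0) * (if e ∈ cls G c j' then 1 else 0)) := by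
      intro j' _
      refine mul_nonneg (hFF _) ?_
      split_ifs <;> norm_num
    refine le_trans ?_ (Finset.single_le_sum h2 (Finset.mem_univ j))
    simp [hi, hj]
  refine le_trans ?_ hsingle
  obtain ⟨t, ht⟩ : ∃ t, t = j - i := ⟨_, rfl⟩
  have hjt : j = i + t := by rw [ht]; abel
  rw [← ht]
  subst hjt
  clear hsingle hsum0 ht
  fin_cases t
  · have hj' : e ∈ cls G c i := by simpa using hj
    have h := DD_same hk hi hj'
    have h' : ((DD G a e).card : ℝ) ≤ 2 * (rest G c).card * n + 6 * k * n := by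
      rw [hn]; exact_mod_cast h
    exact h'.trans hE
  · exact hD
  · have h := DD_two hk hi hj
    have h' : ((DD G a e).card : ℝ) ≤ (cls G c (i - 1)).card * (cls G c (i - 2)).card +
        (2 * (rest G c).card * n + 6 * k * n) := by
      rw [hn]; exact_mod_cast h
    exact h'.trans (add_le_add (hU _ _) hE)
  · have h := DD_three hk hi hj
    have h' : ((DD G a e).card : ℝ) ≤ (cls G c (i + 1)).card * (cls G c (i + 2)).card +
        (2 * (rest G c).card * n + 6 * k * n) := by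
      rw [hn]; exact_mod_cast h
    exact h'.trans (add_le_add (hU _ _) hE)
  · exact hD

/-- Number of neighbours of `v` in class `i`. -/
def al (G : SimpleGraph V) [DecidableRel G.Adj] (c : Fin 5 → V) (v : V) (i : Fin 5) : ℕ :=
  (G.neighborFinset v ∩ cls G c i).card

theorem rr_bound {k : ℕ} (hk : CodegLE G k) {c : Fin 5 → V} {n U E : ℝ}
    (hn : n = Fintype.card V) (hE : 2 * ((rest G c).card : ℝ) * n + 6 * k * n ≤ E)
    (hU : ∀ i j, ((cls G c i).card : ℝ) * (cls G c j).card ≤ U) (v : V) :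
    (rr G v : ℝ) ≤ 2 * (rest G c).card * n ^ 3 +
      ∑ i, ∑ j, FF n U E (j - i) * ((al G c v i : ℝ) * al G c v j) := by
  have hn0 : 0 ≤ n := by rw [hn]; exact Nat.cast_nonneg _
  have h1 : (rr G v : ℝ) ≤ ∑ a ∈ G.neighborFinset v, ∑ e ∈ G.neighborFinset v,
      ((DD G a e).card : ℝ) := by exact_mod_cast rr_le v
  refine h1.trans ?_
  set A := G.neighborFinset v with hA
  have h2 : ∀ a ∈ A, ∀ e ∈ A, ((DD G a e).card : ℝ) ≤ _ := fun a _ e _ =>
    DD_pointwise hk hn hE hU a e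
  refine (Finset.sum_le_sum fun a ha => Finset.sum_le_sum fun e he => h2 a ha e he).trans ?_
  have hAn : (A.card : ℝ) ≤ n := by rw [hn]; exact_mod_cast Finset.card_le_univ _
  have hres : ∑ a ∈ A, (if a ∈ rest G c then (1 : ℝ) else 0) ≤ (rest G c).card := by
    rw [Finset.sum_ite_mem, Finset.sum_const, nsmul_eq_mul, mul_one]
    exact_mod_cast Finset.card_le_card Finset.inter_subset_right
  have hres0 : 0 ≤ ∑ a ∈ A, (if a ∈ rest G c then (1 : ℝ) else 0) :=
    Finset.sum_nonneg fun a _ => by split_ifs <;> norm_num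
  have e1 : ∑ a ∈ A, ∑ e ∈ A, n ^ 2 * ((if a ∈ rest G c then (1 : ℝ) else 0) +
      (if e ∈ rest G c then 1 else 0)) =
      2 * (n ^ 2 * (A.card * ∑ a ∈ A, (if a ∈ rest G c then (1 : ℝ) else 0))) := by
    simp only [mul_add, Finset.sum_add_distrib, Finset.sum_const, nsmul_eq_mul]
    rw [← Finset.mul_sum, ← Finset.mul_sum]
    ring
  have e2 : ∑ a ∈ A, ∑ e ∈ A, ∑ i, ∑ j, FF n U E (j - i) *
      ((if a ∈ cls G c i then (1 : ℝ) else 0) * (if e ∈ cls G c j then 1 else 0)) =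
      ∑ i, ∑ j, FF n U E (j - i) * ((al G c v i : ℝ) * al G c v j) := by
    have hal : ∀ i, (al G c v i : ℝ) = ∑ a ∈ A, (if a ∈ cls G c i then (1 : ℝ) else 0) := by
      intro i
      rw [Finset.sum_ite_mem, Finset.sum_const, nsmul_eq_mul, mul_one, al]
    have hprod : ∀ i j, FF n U E (j - i) * ((al G c v i : ℝ) * al G c v j) =
        ∑ a ∈ A, ∑ e ∈ A, FF n U E (j - i) *
          ((if a ∈ cls G c i then (1 : ℝ) else 0) * (if e ∈ cls G c j then 1 else 0)) := by
      intro i j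
      rw [hal, hal, Finset.sum_mul_sum, Finset.mul_sum]
      exact Finset.sum_congr rfl fun a _ => by rw [Finset.mul_sum]
    simp only [hprod]
    calc ∑ a ∈ A, ∑ e ∈ A, ∑ i, ∑ j, FF n U E (j - i) *
          ((if a ∈ cls G c i then (1 : ℝ) else 0) * (if e ∈ cls G c j then 1 else 0)) =
        ∑ a ∈ A, ∑ i, ∑ e ∈ A, ∑ j, FF n U E (j - i) *
          ((if a ∈ cls G c i then (1 : ℝ) else 0) * (if e ∈ cls G c j then 1 else 0)) :=
          Finset.sum_congr rfl fun a _ => Finset.sum_comm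
      _ = ∑ i, ∑ a ∈ A, ∑ e ∈ A, ∑ j, FF n U E (j - i) *
          ((if a ∈ cls G c i then (1 : ℝ) else 0) * (if e ∈ cls G c j then 1 else 0)) :=
          Finset.sum_comm
      _ = ∑ i, ∑ a ∈ A, ∑ j, ∑ e ∈ A, FF n U E (j - i) *
          ((if a ∈ cls G c i then (1 : ℝ) else 0) * (if e ∈ cls G c j then 1 else 0)) :=
          Finset.sum_congr rfl fun i _ => Finset.sum_congr rfl fun a _ => Finset.sum_comm
      _ = ∑ i, ∑ j, ∑ a ∈ A, ∑ e ∈ A, FF n U E (j - i) *
          ((if a ∈ cls G c i then (1 : ℝ) else 0) * (if e ∈ cls G c j then 1 else 0)) :=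
          Finset.sum_congr rfl fun i _ => Finset.sum_comm
  have e0 : ∀ X Y : V → V → ℝ, ∑ a ∈ A, ∑ e ∈ A, (X a e + Y a e) =
      ∑ a ∈ A, ∑ e ∈ A, X a e + ∑ a ∈ A, ∑ e ∈ A, Y a e := by
    intro X Y
    rw [← Finset.sum_add_distrib]
    exact Finset.sum_congr rfl fun a _ => Finset.sum_add_distrib
  rw [e0, e1, e2]
  have h3 : 2 * (n ^ 2 * (A.card * ∑ a ∈ A, (if a ∈ rest G c then (1 : ℝ) else 0))) ≤
      2 * (rest G c).card * n ^ 3 := by
    calc 2 * (n ^ 2 * (A.card * ∑ a ∈ A, (if a ∈ rest G c then (1 : ℝ) else 0))) ≤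
        2 * (n ^ 2 * (n * (rest G c).card)) := by gcongr
      _ = _ := by ring
  linarith

end Pool.Agent.LibPentagon
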