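import Pool.Agent.LibPentagon.Basic

set_option autoImplicit false

open Finset

namespace Pool.Agent.LibPentagon

variable {V : Type*} [Fintype V] [DecidableEq V] {G : SimpleGraph V} [DecidableRel G.Adj]

/-- Step 3: a labelled 5-cycle with large degree sum. -/
theorem exists_good_cycle {k : ℕ} (hk : CodegLE G k)
    (hn : 10 ^ 16 * ((k : ℝ) + 1) ≤ Fintype.card V)
    (hr : ∀ v, (32 / 10000 - 2 / 10 ^ 12) * (Fintype.card V : ℝ) ^ 4 ≤ rr G v) :
    ∃ c ∈ cyc5 G, (2 - 2 / 10 ^ 8) * (Fintype.card V : ℝ) ≤ ∑ i, (G.degree (c i) : ℝ) := by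
  by_contra hcon
  push Not at hcon
  set n : ℝ := (Fintype.card V : ℝ) with hndef
  have hk0 : (0 : ℝ) ≤ k := Nat.cast_nonneg k
  have hnpos : 0 < n := by nlinarith
  set S : ℝ := ∑ v, (G.degree v : ℝ) with hS
  set N : ℝ := ((cyc5 G).card : ℝ) with hN
  have h1 : ∑ x ∈ cyc5 G, ∑ i, (G.degree (x i) : ℝ) ≤ (2 - 2 / 10 ^ 8) * n * N := by
    calc ∑ x ∈ cyc5 G, ∑ i, (G.degree (x i) : ℝ) ≤ ∑ _x ∈ cyc5 G, (2 - 2 / 10 ^ 8) * n :=
          Finset.sum_le_sum fun x hx => (hcon x hx).le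
      _ = _ := by rw [Finset.sum_const, nsmul_eq_mul, mul_comm]
  have h2 : ∑ x ∈ cyc5 G, ∑ i, (G.degree (x i) : ℝ) = 5 * ∑ v, (G.degree v : ℝ) * rr G v := by
    rw [Finset.sum_comm]
    have : ∀ i : Fin 5, ∑ x ∈ cyc5 G, (G.degree (x i) : ℝ) = ∑ v, (G.degree v : ℝ) * rr G v := by
      intro i
      rw [sum_cyc5_rot (fun v => (G.degree v : ℝ)) i, sum_cyc5_fiber (fun v => (G.degree v : ℝ))]
    rw [Finset.sum_congr rfl (fun i _ => this i), Finset.sum_const, Finset.card_univ,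
      Fintype.card_fin, nsmul_eq_mul]
    norm_num
  have h3 : S * ((32 / 10000 - 2 / 10 ^ 12) * n ^ 4) ≤ ∑ v, (G.degree v : ℝ) * rr G v := by
    rw [hS, Finset.sum_mul]
    apply Finset.sum_le_sum
    intro v _
    exact mul_le_mul_of_nonneg_left (hr v) (Nat.cast_nonneg _)
  have h4 := pentagon_ineq hk
  rw [← hndef, ← hS, ← hN] at h4
  have h5 : n * ((32 / 10000 - 2 / 10 ^ 12) * n ^ 4) ≤ N := by
    rw [hN, card_cyc5_eq]
    calc n * ((32 / 10000 - 2 / 10 ^ 12) * n ^ 4) = ∑ _v : V, ((32 / 10000 - 2 / 10 ^ 12) * n ^ 4) := by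
          rw [Finset.sum_const, Finset.card_univ, nsmul_eq_mul]
      _ ≤ _ := Finset.sum_le_sum fun v _ => hr v
  -- normalise
  obtain ⟨s, hs⟩ : ∃ s : ℝ, S = s * n ^ 2 := ⟨S / n ^ 2, by field_simp⟩
  obtain ⟨m, hm⟩ : ∃ m : ℝ, N = m * n ^ 5 := ⟨N / n ^ 5, by field_simp⟩
  obtain ⟨q, hq⟩ : ∃ q : ℝ, (k : ℝ) = q * n := ⟨k / n, by field_simp⟩
  have hqn : q ≤ 1 / 10 ^ 16 := by
    have : 10 ^ 16 * (q * n) ≤ n := by rw [← hq]; linarith
    have h6 : (10 ^ 16 * q) * n ≤ 1 * n := by linarith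
    have := le_of_mul_le_mul_right h6 hnpos
    linarith
  have i1 : 5 * ((32 / 10000 - 2 / 10 ^ 12) * s) ≤ (2 - 2 / 10 ^ 8) * m := by
    have h6 : (5 * ((32 / 10000 - 2 / 10 ^ 12) * s)) * n ^ 6 ≤ ((2 - 2 / 10 ^ 8) * m) * n ^ 6 := by
      rw [h2] at h1
      rw [hs] at h3
      rw [hm] at h1
      linarith
    exact le_of_mul_le_mul_right h6 (by positivity)
  have i2 : 450000 * m ≤ 1296 + 360 * s + 448344 * q := by
    have h6 : (450000 * m) * n ^ 5 ≤ (1296 + 360 * s + 448344 * q) * n ^ 5 := by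
      rw [hm, hs, hq] at h4
      linarith
    exact le_of_mul_le_mul_right h6 (by positivity)
  have i3 : (32 / 10000 - 2 / 10 ^ 12) ≤ m := by
    have h6 : (32 / 10000 - 2 / 10 ^ 12) * n ^ 5 ≤ m * n ^ 5 := by
      rw [hm] at h5
      linarith
    exact le_of_mul_le_mul_right h6 (by positivity)
  norm_num at i1 i2 i3 hqn
  linarith

/-- The vertices attached to `c` exactly at `c (i+1)` and `c (i-1)`. -/
def cls (G : SimpleGraph V) [DecidableRel G.Adj] (c : Fin 5 → V) (i : Fin 5) : Finset V :=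
  univ.filter fun v => ∀ j, G.Adj v (c j) ↔ (j = i + 1 ∨ j = i - 1)

omit [DecidableEq V] in
theorem mem_cls {c : Fin 5 → V} {i : Fin 5} {v : V} :
    v ∈ cls G c i ↔ ∀ j, G.Adj v (c j) ↔ (j = i + 1 ∨ j = i - 1) := by simp [cls]

/-- The remaining vertices. -/
def rest (G : SimpleGraph V) [DecidableRel G.Adj] (c : Fin 5 → V) : Finset V :=
  univ.filter fun v => ∀ i, v ∉ cls G c i

theorem mem_rest {c : Fin 5 → V} {v : V} : v ∈ rest G c ↔ ∀ i, v ∉ cls G c i := by simp [rest]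

omit [DecidableEq V] in
theorem cls_unique {c : Fin 5 → V} {i j : Fin 5} {v : V} (hi : v ∈ cls G c i)
    (hj : v ∈ cls G c j) : i = j := by
  rw [mem_cls] at hi hj
  have h1 : i + 1 = j + 1 ∨ i + 1 = j - 1 := (hj (i + 1)).mp ((hi (i + 1)).mpr (Or.inl rfl))
  have h2 : i - 1 = j + 1 ∨ i - 1 = j - 1 := (hj (i - 1)).mp ((hi (i - 1)).mpr (Or.inr rfl))
  revert h1 h2
  clear hi hj
  revert i j
  decide

theorem rest_pattern (q : Fin 5 → Bool) :
    (univ.filter fun i => q i = true).card +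
      (if ∀ i, ¬ (∀ j, q j = true ↔ (j = i + 1 ∨ j = i - 1)) then 1 else 0) ≤
    2 + 5 * (univ.filter fun i => q i = true ∧ q (i + 1) = true).card := by
  revert q
  decide

theorem rest_card {k : ℕ} (hk : CodegLE G k) {c : Fin 5 → V} (hc : c ∈ cyc5 G) :
    ∑ i, G.degree (c i) + (rest G c).card ≤ 2 * Fintype.card V + 25 * k := by
  have h1 : ∑ i, G.degree (c i) = ∑ v, (univ.filter fun i => G.Adj v (c i)).card := by
    simp only [← G.card_neighborFinset_eq_degree, Finset.card_eq_sum_ones, Finset.sum_filter]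
    rw [Finset.sum_comm]
    apply Finset.sum_congr rfl
    intro i _
    rw [← Finset.sum_filter]
    apply Finset.sum_congr _ (fun _ _ => rfl)
    ext v
    simp [G.adj_comm]
  have h2 : (rest G c).card = ∑ v, if v ∈ rest G c then 1 else 0 := by
    rw [Finset.sum_ite_mem, Finset.univ_inter, Finset.card_eq_sum_ones]
  have h3 : ∑ v, (univ.filter fun i => G.Adj v (c i) ∧ G.Adj v (c (i + 1))).card ≤ 5 * k := by
    simp only [Finset.card_eq_sum_ones, Finset.sum_filter]
    rw [Finset.sum_comm]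
    calc ∑ i : Fin 5, ∑ v, (if G.Adj v (c i) ∧ G.Adj v (c (i + 1)) then 1 else 0) ≤
        ∑ _i : Fin 5, k := by
          apply Finset.sum_le_sum
          intro i _
          rw [← Finset.sum_filter, ← Finset.card_eq_sum_ones]
          refine le_trans (Finset.card_le_card ?_) (hk (c i) (c (i + 1)) ((mem_cyc5.mp hc).2 i))
          intro v
          simp [G.adj_comm]
      _ = _ := by simp
  rw [h1, h2, ← Finset.sum_add_distrib]
  calc ∑ v, ((univ.filter fun i => G.Adj v (c i)).card + if v ∈ rest G c then 1 else 0) ≤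
      ∑ v, (2 + 5 * (univ.filter fun i => G.Adj v (c i) ∧ G.Adj v (c (i + 1))).card) := by
        apply Finset.sum_le_sum
        intro v _
        have := rest_pattern (fun i => decide (G.Adj v (c i)))
        simp only [decide_eq_true_eq] at this
        simpa only [mem_rest, mem_cls] using this
    _ = 2 * Fintype.card V + 5 * ∑ v, (univ.filter fun i => G.Adj v (c i) ∧ G.Adj v (c (i + 1))).card := by
        rw [Finset.sum_add_distrib, ← Finset.mul_sum]
        simp [mul_comm]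
    _ ≤ _ := by omega

/-- Wrong neighbours. -/
def wr (G : SimpleGraph V) [DecidableRel G.Adj] (c : Fin 5 → V) (u : V) : Finset V :=
  (G.neighborFinset u).filter fun w => ∃ i j, u ∈ cls G c i ∧ w ∈ cls G c j ∧
    ¬ (j = i + 1 ∨ j = i - 1)

theorem mem_wr {c : Fin 5 → V} {u w : V} : w ∈ wr G c u ↔ G.Adj u w ∧
    ∃ i j, u ∈ cls G c i ∧ w ∈ cls G c j ∧ ¬ (j = i + 1 ∨ j = i - 1) := by simp [wr]

theorem wr_card {k : ℕ} (hk : CodegLE G k) (c : Fin 5 → V) (u : V) : (wr G c u).card ≤ 2 * k := by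
  by_cases hu : ∃ i, u ∈ cls G c i
  · obtain ⟨i, hi⟩ := hu
    have hi' := mem_cls.mp hi
    have a1 : G.Adj u (c (i + 1)) := (hi' _).mpr (Or.inl rfl)
    have a2 : G.Adj u (c (i - 1)) := (hi' _).mpr (Or.inr rfl)
    have hsub : wr G c u ⊆ (G.neighborFinset u ∩ G.neighborFinset (c (i + 1))) ∪
        (G.neighborFinset u ∩ G.neighborFinset (c (i - 1))) := by
      intro w hw
      obtain ⟨huw, i', j, hi'', hj, hne⟩ := mem_wr.mp hw
      obtain rfl := cls_unique hi hi''
      have hj' := mem_cls.mp hj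
      have key : (i + 1 = j + 1 ∨ i + 1 = j - 1) ∨ (i - 1 = j + 1 ∨ i - 1 = j - 1) := by
        revert hne
        clear * -
        revert i j
        decide
      rw [Finset.mem_union, Finset.mem_inter, Finset.mem_inter]
      simp only [SimpleGraph.mem_neighborFinset]
      rcases key with h | h
      · exact Or.inl ⟨huw, ((hj' (i + 1)).mpr h).symm⟩
      · exact Or.inr ⟨huw, ((hj' (i - 1)).mpr h).symm⟩
    calc (wr G c u).card ≤ _ := Finset.card_le_card hsub
      _ ≤ _ := Finset.card_union_le _ _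
      _ ≤ k + k := Nat.add_le_add (hk _ _ a1) (hk _ _ a2)
      _ = 2 * k := by ring
  · have : wr G c u = ∅ := by
      rw [Finset.eq_empty_iff_forall_notMem]
      intro w hw
      obtain ⟨_, i, _, hi, _⟩ := mem_wr.mp hw
      exact hu ⟨i, hi⟩
    rw [this]; simp

end Pool.Agent.LibPentagon
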